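import Mathlib

/-!
The norm of a finite extension of a complete ultrametric field and the spectral norm.
-/

set_option autoImplicit false

namespace Pool.Agent.MP009fd8J

open Finset

section tools

variable {k L : Type*} [NontriviallyNormedField k] [IsUltrametricDist k] [CompleteSpace k]
  [CharZero k] [Field L] [Algebra k L] [FiniteDimensional k L]

/-- A product of `1 + a i` with all `a i` of norm at most `r ≤ 1` is `1` up to `r`. -/
theorem norm_prod_one_add_sub_one {F : Type*} [NormedField F] [IsUltrametricDist F] {ι : Type*}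
    (s : Finset ι) (a : ι → F) {r : ℝ} (hr0 : 0 ≤ r) (hr : r ≤ 1) (h : ∀ i ∈ s, ‖a i‖ ≤ r) :
    ‖∏ i ∈ s, (1 + a i) - 1‖ ≤ r := by
  classical
  induction s using Finset.induction_on with
  | empty => simpa using hr0
  | insert i s his ih =>
    have h1 := ih fun j hj => h j (mem_insert_of_mem hj)
    have h2 := h i (mem_insert_self i s)
    rw [prod_insert his]
    have e : (1 + a i) * ∏ j ∈ s, (1 + a j) - 1 =
        (1 + a i) * (∏ j ∈ s, (1 + a j) - 1) + a i := by ring
    rw [e]
    refine (IsUltrametricDist.norm_add_le_max _ _).trans (max_le ?_ h2)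
    rw [norm_mul]
    have h3 : ‖1 + a i‖ ≤ 1 := by
      refine (IsUltrametricDist.norm_add_le_max _ _).trans (max_le ?_ (h2.trans hr))
      rw [norm_one]
    calc ‖1 + a i‖ * ‖∏ j ∈ s, (1 + a j) - 1‖ ≤ 1 * r :=
          mul_le_mul h3 h1 (norm_nonneg _) zero_le_one
      _ = r := one_mul r

omit [IsUltrametricDist k] [CompleteSpace k] [CharZero k] [FiniteDimensional k L] in
theorem spectralNorm_algHom {E : Type*} [Field E] [Algebra k E] (σ : L →ₐ[k] E) (x : L) :
    spectralNorm k E (σ x) = spectralNorm k L x := by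
  unfold spectralNorm
  rw [minpoly.algHom_eq σ σ.injective x]

/-- `‖N x‖ = ‖x‖ ^ n`. -/
theorem norm_algebra_norm (x : L) :
    ‖Algebra.norm k x‖ = spectralNorm k L x ^ Module.finrank k L := by
  let i1 : NormedField (AlgebraicClosure k) := spectralNorm.normedField k (AlgebraicClosure k)
  let i2 : NormedAlgebra k (AlgebraicClosure k) := spectralNorm.normedAlgebra k _
  have h1 := Algebra.norm_eq_prod_embeddings k (AlgebraicClosure k) x
  have h2 : ‖algebraMap k (AlgebraicClosure k) (Algebra.norm k x)‖ = ‖Algebra.norm k x‖ :=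
    norm_algebraMap' _ _
  rw [← h2, h1, norm_prod]
  have h3 : ∀ σ : L →ₐ[k] AlgebraicClosure k, ‖σ x‖ = spectralNorm k L x := fun σ =>
    spectralNorm_algHom σ x
  rw [Finset.prod_congr rfl fun σ _ => h3 σ, Finset.prod_const, Finset.card_univ, AlgHom.card]

/-- `N (1 + z) = 1` up to `‖z‖`. -/
theorem norm_algebra_norm_one_add_sub_one (z : L) (hz : spectralNorm k L z ≤ 1) :
    ‖Algebra.norm k (1 + z) - 1‖ ≤ spectralNorm k L z := by
  let i1 : NormedField (AlgebraicClosure k) := spectralNorm.normedField k (AlgebraicClosure k)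
  let i2 : NormedAlgebra k (AlgebraicClosure k) := spectralNorm.normedAlgebra k _
  have i3 : IsUltrametricDist (AlgebraicClosure k) :=
    IsUltrametricDist.isUltrametricDist_of_isNonarchimedean_norm isNonarchimedean_spectralNorm
  have h1 := Algebra.norm_eq_prod_embeddings k (AlgebraicClosure k) (1 + z)
  have h2 : ‖algebraMap k (AlgebraicClosure k) (Algebra.norm k (1 + z) - 1)‖ =
      ‖Algebra.norm k (1 + z) - 1‖ := norm_algebraMap' _ _
  rw [← h2, map_sub, h1, map_one]
  have h3 : ∀ σ : L →ₐ[k] AlgebraicClosure k, σ (1 + z) = 1 + σ z := fun σ => by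
    rw [map_add, map_one]
  rw [Finset.prod_congr rfl fun σ _ => h3 σ]
  refine norm_prod_one_add_sub_one _ _ (spectralNorm_nonneg z) hz fun σ _ => ?_
  exact (spectralNorm_algHom σ z).le

/-- The norm of a finite extension and the spectral norm (explicit arguments). -/
theorem norm_algebraNorm {k : Type*} [NontriviallyNormedField k] [IsUltrametricDist k]
    [CompleteSpace k] [CharZero k] {L : Type*} [Field L] [Algebra k L] [FiniteDimensional k L]
    (x : L) : ‖Algebra.norm k x‖ = spectralNorm k L x ^ Module.finrank k L :=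
  norm_algebra_norm x

theorem norm_algebraNorm_one_add_sub_one {k : Type*} [NontriviallyNormedField k]
    [IsUltrametricDist k] [CompleteSpace k] [CharZero k] {L : Type*} [Field L] [Algebra k L]
    [FiniteDimensional k L] (z : L) (hz : spectralNorm k L z ≤ 1) :
    ‖Algebra.norm k (1 + z) - 1‖ ≤ spectralNorm k L z :=
  norm_algebra_norm_one_add_sub_one z hz

end tools

end Pool.Agent.MP009fd8J
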