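import Pool.Agent.Lib.MP_009fd8_agJ.Def
import Pool.Agent.Lib.MP_009fd8_agJ.NormTools

/-!
The place above `n`: norms of the points of `x (x + n) = y ^ p`.
-/

set_option autoImplicit false

namespace Pool.Agent.MP009fd8J

open Finset

/-- `p`-th roots of `1 + s`, `‖s‖ < 1`, when `‖p‖ = 1`. -/
theorem exists_pow_eq_one_add {k : Type*} [NormedField k] [IsUltrametricDist k] [CompleteSpace k]
    (p : ℕ) (hp : ‖(p : k)‖ = 1) (s : k) (hs : ‖s‖ < 1) : ∃ c : k, c ^ p = 1 + s := by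
  have hp0 : (p : k) ≠ 0 := by
    intro h
    rw [h, norm_zero] at hp
    exact zero_ne_one hp
  set r : ℝ := ‖s‖ with hr
  have hr0 : 0 ≤ r := norm_nonneg s
  let g : k → k := fun c => c - (c ^ p - (1 + s)) / (p : k)
  let S : Set k := {c | ‖c - 1‖ ≤ r}
  have hSclosed : IsClosed S := by
    have : Continuous fun c : k => ‖c - 1‖ := by fun_prop
    exact isClosed_le this continuous_const
  have hnorm : ∀ c ∈ S, ‖c‖ ≤ 1 := by
    intro c hc
    have e : c = (c - 1) + 1 := by ring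
    rw [e]
    refine (IsUltrametricDist.norm_add_le_max _ _).trans (max_le ?_ (by rw [norm_one]))
    exact (show ‖c - 1‖ ≤ r from hc).trans hs.le
  have hpow : ∀ c ∈ S, ∀ i : ℕ, ‖c ^ i - 1‖ ≤ r := by
    intro c hc i
    induction i with
    | zero => simpa using hr0
    | succ i ih =>
      have e : c ^ (i + 1) - 1 = c * (c ^ i - 1) + (c - 1) := by ring
      rw [e]
      refine (IsUltrametricDist.norm_add_le_max _ _).trans (max_le ?_ hc)
      rw [norm_mul]
      calc ‖c‖ * ‖c ^ i - 1‖ ≤ 1 * r := mul_le_mul (hnorm c hc) ih (norm_nonneg _) zero_le_one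
        _ = r := one_mul r
  have hlip : ∀ c ∈ S, ∀ c' ∈ S, ‖g c - g c'‖ ≤ r * ‖c - c'‖ := by
    intro c hc c' hc'
    have e1 : g c - g c' = (c - c') * (((p : k) - ∑ i ∈ range p, c ^ i * c' ^ (p - 1 - i)) / p) := by
      have h1 : c ^ p - c' ^ p = (∑ i ∈ range p, c ^ i * c' ^ (p - 1 - i)) * (c - c') :=
        (Commute.all c c').geom_sum₂_mul p |>.symm
      change c - (c ^ p - (1 + s)) / (p : k) - (c' - (c' ^ p - (1 + s)) / (p : k)) = _
      field_simp
      linear_combination -h1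
    rw [e1, norm_mul, norm_div, hp, div_one, mul_comm]
    apply mul_le_mul_of_nonneg_right _ (norm_nonneg _)
    have e2 : (p : k) - ∑ i ∈ range p, c ^ i * c' ^ (p - 1 - i) =
        ∑ i ∈ range p, (1 - c ^ i * c' ^ (p - 1 - i)) := by
      rw [sum_sub_distrib, sum_const, card_range, nsmul_eq_mul, mul_one]
    rw [e2]
    apply IsUltrametricDist.norm_sum_le_of_forall_le_of_nonneg hr0
    intro i _
    have e3 : 1 - c ^ i * c' ^ (p - 1 - i) =
        -(c ^ i * (c' ^ (p - 1 - i) - 1) + (c ^ i - 1)) := by ring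
    rw [e3, norm_neg]
    refine (IsUltrametricDist.norm_add_le_max _ _).trans (max_le ?_ (hpow c hc i))
    rw [norm_mul, norm_pow]
    calc ‖c‖ ^ i * ‖c' ^ (p - 1 - i) - 1‖ ≤ 1 * r :=
          mul_le_mul (pow_le_one₀ (norm_nonneg _) (hnorm c hc)) (hpow c' hc' _) (norm_nonneg _)
            zero_le_one
      _ = r := one_mul r
  have h1S : (1 : k) ∈ S := by
    change ‖(1 : k) - 1‖ ≤ r
    simpa using hr0
  have hg1 : ‖g 1 - 1‖ ≤ r := by
    have e : g 1 - 1 = s / p := by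
      change 1 - (1 ^ p - (1 + s)) / (p : k) - 1 = s / p
      rw [one_pow]
      ring
    rw [e, norm_div, hp, div_one]
  have hmaps : Set.MapsTo g S S := by
    intro c hc
    change ‖g c - 1‖ ≤ r
    have e : g c - 1 = (g c - g 1) + (g 1 - 1) := by ring
    rw [e]
    refine (IsUltrametricDist.norm_add_le_max _ _).trans (max_le ?_ hg1)
    refine (hlip c hc 1 h1S).trans ?_
    calc r * ‖c - 1‖ ≤ 1 * r := mul_le_mul hs.le hc (norm_nonneg _) zero_le_one
      _ = r := one_mul r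
  have hcontr : ContractingWith ⟨r, hr0⟩ (hmaps.restrict g S S) := by
    refine ⟨?_, ?_⟩
    · exact_mod_cast hs
    · apply LipschitzWith.of_dist_le_mul
      intro a b
      rw [Subtype.dist_eq, Subtype.dist_eq, dist_eq_norm, dist_eq_norm]
      exact hlip a a.2 b b.2
  obtain ⟨c, _, hc, _⟩ := ContractingWith.exists_fixedPoint' hSclosed.isComplete hmaps hcontr h1S
    (edist_ne_top _ _)
  refine ⟨c, ?_⟩
  have h2 : c - (c ^ p - (1 + s)) / (p : k) = c := hc
  have h3 : (c ^ p - (1 + s)) / (p : k) = 0 := by linear_combination -h2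
  rcases div_eq_zero_iff.1 h3 with h4 | h4
  · linear_combination h4
  · exact absurd h4 hp0

/-- If `z ^ 2` is a `p`-th power and `p` is odd, then `z` is a `p`-th power. -/
theorem exists_pow_of_sq {k : Type*} [Field k] {p : ℕ} (hp : Odd p) {z w : k} (hz : z ≠ 0)
    (h : z ^ 2 = w ^ p) : ∃ c : k, z = c ^ p := by
  obtain ⟨m, rfl⟩ := hp
  refine ⟨w ^ (m + 1) / z, ?_⟩
  rw [div_pow, eq_div_iff (pow_ne_zero _ hz), ← pow_mul, mul_comm (m + 1), pow_mul, ← h]
  ring

section atN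

variable {k L : Type*} [NontriviallyNormedField k] [IsUltrametricDist k] [CompleteSpace k]
  [CharZero k] [Field L] [Algebra k L] [FiniteDimensional k L]

/-- The place above `n`. -/
theorem norm_at_n (p : ℕ) (hp : p.Prime) (hodd : Odd p) (hpk : ‖(p : k)‖ = 1) (n : k)
    (hn0 : n ≠ 0)
    (hn : ∀ (c : k) (m : ℕ), ‖c‖ ^ p = ‖n‖ ^ m → p ∣ m) (hL : Module.finrank k L < p)
    (x y : L) (hx : x ≠ 0) (hxn : x + algebraMap k L n ≠ 0)
    (hxy : x * (x + algebraMap k L n) = y ^ p) :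
    ∃ (j : ℤ) (c : k), Algebra.norm k x = n ^ j * c ^ p := by
  classical
  let i1 : NormedField L := spectralNorm.normedField k L
  let i2 : NormedAlgebra k L := spectralNorm.normedAlgebra k L
  have i3 : IsUltrametricDist L :=
    IsUltrametricDist.isUltrametricDist_of_isNonarchimedean_norm isNonarchimedean_spectralNorm
  have hN : ∀ z : L, ‖Algebra.norm k z‖ = ‖z‖ ^ Module.finrank k L := norm_algebra_norm
  have hN1 : ∀ z : L, ‖z‖ < 1 → ∃ c : k, Algebra.norm k (1 + z) = c ^ p := by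
    intro z hz
    have h1 : ‖Algebra.norm k (1 + z) - 1‖ ≤ ‖z‖ :=
      norm_algebra_norm_one_add_sub_one z hz.le
    obtain ⟨c, hc⟩ := exists_pow_eq_one_add p hpk _ (h1.trans_lt hz)
    exact ⟨c, by rw [hc]; ring⟩
  set N : L := algebraMap k L n with hNdef
  have hN0 : N ≠ 0 := by
    rw [hNdef]
    exact (map_ne_zero _).2 hn0
  have hNn : ‖N‖ = ‖n‖ := norm_algebraMap' _ _
  have hNN : Algebra.norm k N = n ^ Module.finrank k L := Algebra.norm_algebraMap n
  have hNx : Algebra.norm k x ≠ 0 := by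
    rw [Algebra.norm_ne_zero_iff]
    exact hx
  rcases lt_trichotomy ‖x‖ ‖N‖ with h | h | h
  · -- `‖x‖ < ‖n‖`
    have h1 : ‖x / N‖ < 1 := by
      rw [norm_div, div_lt_one (norm_pos_iff.2 hN0)]
      exact h
    obtain ⟨c, hc⟩ := hN1 _ h1
    have hc0 : c ≠ 0 := by
      rintro rfl
      rw [zero_pow hp.ne_zero, Algebra.norm_eq_zero_iff] at hc
      apply hxn
      have : x + N = N * (1 + x / N) := by field_simp; ring
      rw [this, hc, mul_zero]
    have e : x * (N * (1 + x / N)) = y ^ p := by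
      rw [← hxy]
      field_simp
      ring
    have e2 := congrArg (Algebra.norm k) e
    rw [map_mul, map_mul, map_pow, hc, hNN] at e2
    refine ⟨-(Module.finrank k L : ℤ), Algebra.norm k y / c, ?_⟩
    rw [zpow_neg, zpow_natCast, div_pow, ← e2]
    have h5 : n ^ Module.finrank k L ≠ 0 := pow_ne_zero _ hn0
    have h6 : c ^ p ≠ 0 := pow_ne_zero _ hc0
    field_simp
  · -- `‖x‖ = ‖n‖`
    have h2 : ‖x + N‖ ≤ ‖N‖ :=
      (IsUltrametricDist.norm_add_le_max _ _).trans (max_le h.le le_rfl)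
    rcases h2.lt_or_eq with h3 | h3
    · have h1 : ‖-((x + N) / N)‖ < 1 := by
        rw [norm_neg, norm_div, div_lt_one (norm_pos_iff.2 hN0)]
        exact h3
      obtain ⟨c, hc⟩ := hN1 _ h1
      have e : x = algebraMap k L (-n) * (1 + -((x + N) / N)) := by
        rw [map_neg, ← hNdef]
        field_simp
        ring
      refine ⟨Module.finrank k L, (-1) ^ Module.finrank k L * c, ?_⟩
      conv_lhs => rw [e]
      rw [map_mul, Algebra.norm_algebraMap, hc, zpow_natCast, neg_pow, mul_pow]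
      rcases neg_one_pow_eq_or k (Module.finrank k L) with h7 | h7
      · rw [h7, one_pow]; ring
      · rw [h7, hodd.neg_one_pow]; ring
    · exfalso
      have h4 : ‖y‖ ^ p = ‖n‖ ^ 2 := by
        rw [← norm_pow, ← hxy, norm_mul, h, h3, hNn]
        ring
      have h5 : ‖Algebra.norm k y‖ ^ p = ‖n‖ ^ (2 * Module.finrank k L) := by
        rw [hN, ← pow_mul, mul_comm, pow_mul, h4, ← pow_mul]
      have h6 := hn _ _ h5
      rcases (Nat.Prime.dvd_mul hp).1 h6 with h7 | h7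
      · have h8 := Nat.le_of_dvd (by norm_num) h7
        have h9 := hp.two_le
        have h10 : p = 2 := le_antisymm h8 h9
        rw [h10] at hodd
        exact absurd hodd (by decide)
      · have h8 := Nat.le_of_dvd Module.finrank_pos h7
        omega
  · -- `‖x‖ > ‖n‖`
    have h1 : ‖N / x‖ < 1 := by
      rw [norm_div, div_lt_one (norm_pos_iff.2 hx)]
      exact h
    obtain ⟨c, hc⟩ := hN1 _ h1
    have hc0 : c ≠ 0 := by
      rintro rfl
      rw [zero_pow hp.ne_zero, Algebra.norm_eq_zero_iff] at hc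
      apply hxn
      have : x + N = x * (1 + N / x) := by field_simp
      rw [this, hc, mul_zero]
    have e : x * (x * (1 + N / x)) = y ^ p := by
      rw [← hxy]
      field_simp
    have e2 := congrArg (Algebra.norm k) e
    rw [map_mul, map_mul, map_pow, hc] at e2
    have e3 : Algebra.norm k x ^ 2 = (Algebra.norm k y / c) ^ p := by
      rw [div_pow, ← e2]
      have h6 : c ^ p ≠ 0 := pow_ne_zero _ hc0
      field_simp
    obtain ⟨b, hb⟩ := exists_pow_of_sq hodd hNx e3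
    exact ⟨0, b, by rw [zpow_zero, one_mul, hb]⟩

end atN

universe u

/-- At a place dividing `n`, not above `p`, where the valuation of `n` is prime to `p`: the image of
`J_n(k)` is generated by `n`.

Proof. `InImage.induction`. For a norm value `N(x)`, `x (x + n) = y ^ p` in `L`, `d = [L : k] < p`:
(1) `‖x‖ > ‖n‖`: `N(x)^2 N(1 + n/x) = N(y)^p`, `N(1 + n/x) = 1 + z`, `‖z‖ < 1`, is a `p`-th power,
`p` odd, so `N(x)` is a `p`-th power. (2) `‖x‖ < ‖n‖`: `N(x) n^d N(1 + x/n) = N(y)^p`.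
(3) `‖x‖ = ‖n‖ > ‖x + n‖`: `x = -n (1 - (x+n)/n)`, `N(x) = (-n)^d (1 + z)`, `-1 = (-1)^p`.
(4) `‖x‖ = ‖n‖ = ‖x + n‖`: `‖n‖^(2d) = ‖N(y)‖^p` with `0 < d < p`, against `hn`. -/
theorem image_at_n {k : Type u} [NontriviallyNormedField k] [IsUltrametricDist k]
    [CompleteSpace k] [CharZero k] (p : ℕ) (hp : p.Prime) (hp2 : p ≠ 2) (h1 : ‖(p : k)‖ = 1)
    (n : k) (hn0 : n ≠ 0) (hn1 : ‖n‖ < 1)
    (hn : ∀ (c : k) (j : ℕ), 0 < j → j < p → ‖n‖ ^ j ≠ ‖c‖ ^ p)
    {a : k} (h : InImage p n a) : ∃ (j : ℕ) (c : k), c ≠ 0 ∧ a = n ^ j * c ^ p := by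
  have hodd : Odd p := hp.odd_of_ne_two hp2
  have hn' : ∀ (c : k) (m : ℕ), ‖c‖ ^ p = ‖n‖ ^ m → p ∣ m := by
    intro c m hcm
    rcases Nat.eq_zero_or_pos (m % p) with h0 | h0
    · exact Nat.dvd_of_mod_eq_zero h0
    · exfalso
      refine hn (c / n ^ (m / p)) (m % p) h0 (Nat.mod_lt _ hp.pos) ?_
      have h2 : ‖n‖ ≠ 0 := norm_ne_zero_iff.2 hn0
      rw [norm_div, norm_pow, div_pow, eq_div_iff (pow_ne_zero _ (pow_ne_zero _ h2)), hcm,
        ← pow_mul, ← pow_add, mul_comm (m / p) p, Nat.mod_add_div]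
  have key : ∃ (j : ℤ) (c : k), c ≠ 0 ∧ a = n ^ j * c ^ p := by
    refine InImage.induction (P := fun a => ∃ (j : ℤ) (c : k), c ≠ 0 ∧ a = n ^ j * c ^ p)
      ?_ ?_ ?_ ?_ ?_ h
    · intro c hc
      exact ⟨0, c, hc, by rw [zpow_zero, one_mul]⟩
    · intro _
      exact ⟨1, 1, one_ne_zero, by rw [zpow_one, one_pow, mul_one]⟩
    · rintro b hb ⟨L, i1, i2, i3, hL, x, y, hx, hxn, hxy, rfl⟩
      obtain ⟨j, c, hc⟩ := norm_at_n p hp hodd h1 n hn0 hn' hL x y hx hxn hxy
      refine ⟨j, c, ?_, hc⟩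
      rintro rfl
      rw [zero_pow hp.ne_zero, mul_zero] at hc
      exact hb hc
    · rintro b c _ _ ⟨i, s, hs, rfl⟩ ⟨j, t, ht, rfl⟩
      exact ⟨i + j, s * t, mul_ne_zero hs ht, by rw [zpow_add₀ hn0, mul_pow]; ring⟩
    · rintro b _ ⟨i, s, hs, rfl⟩
      exact ⟨-i, s⁻¹, inv_ne_zero hs, by rw [zpow_neg, inv_pow, mul_inv]⟩
  obtain ⟨j, c, hc, rfl⟩ := key
  obtain ⟨m, hm⟩ : ∃ m : ℕ, (m : ℤ) = j + p * |j| := by
    apply Int.eq_ofNat_of_zero_le _ |>.imp fun m hm => hm.symm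
    have h3 : (1 : ℤ) ≤ p := by exact_mod_cast hp.one_lt.le
    have h4 := abs_nonneg j
    have h5 := neg_abs_le j
    nlinarith
  refine ⟨m, c * n ^ (-|j|), mul_ne_zero hc (zpow_ne_zero _ hn0), ?_⟩
  rw [← zpow_natCast n m, hm, zpow_add₀ hn0, mul_pow, ← zpow_natCast (n ^ (-|j|)) p, ← zpow_mul]
  have h6 : n ^ ((p : ℤ) * |j|) * n ^ (-|j| * (p : ℤ)) = 1 := by
    rw [← zpow_add₀ hn0]
    have : (p : ℤ) * |j| + -|j| * (p : ℤ) = 0 := by ring
    rw [this, zpow_zero]
  linear_combination (-(n ^ j * c ^ p)) * h6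

end Pool.Agent.MP009fd8J
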