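import Mathlib

/-!
MP_009fd8_ag, all odd p: the local computation above p in an ultrametric field.
-/

namespace Pool.Agent.MP009fd8J

variable {L : Type*} [NormedField L] [IsUltrametricDist L]

theorem norm_add_le_max' (a b : L) : ‖a + b‖ ≤ max ‖a‖ ‖b‖ := IsUltrametricDist.norm_add_le_max a b

theorem norm_sub_le_max' (a b : L) : ‖a - b‖ ≤ max ‖a‖ ‖b‖ := by
  rw [sub_eq_add_neg, ← norm_neg b]
  exact IsUltrametricDist.norm_add_le_max a (-b)

theorem binom_bound {p : ℕ} (hp : p.Prime) (hodd : Odd p) (s : L) :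
    ‖(s - 1) ^ p + 1 - s ^ p‖ ≤ ‖(p : L)‖ * max ‖s‖ (‖s‖ ^ (p - 1)) := by
  have h := add_pow_prime_eq hp s (-1)
  rw [show s - 1 = s + -1 from sub_eq_add_neg s 1, h, hodd.neg_one_pow]
  set S := ∑ k ∈ Finset.Ioo 0 p, s ^ (k - 1) * (-1) ^ (p - k - 1) * ((p.choose k / p : ℕ) : L)
    with hS
  have e : s ^ p + -1 + (p : L) * s * -1 * S + 1 - s ^ p = (p : L) * (-(s * S)) := by ring
  rw [e, norm_mul, norm_neg, norm_mul]
  refine mul_le_mul_of_nonneg_left ?_ (norm_nonneg _)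
  have hSb : ‖S‖ ≤ max 1 (‖s‖ ^ (p - 2)) := by
    refine IsUltrametricDist.norm_sum_le_of_forall_le_of_nonneg
      (le_max_of_le_left zero_le_one) ?_
    intro k hk
    rw [Finset.mem_Ioo] at hk
    rw [norm_mul, norm_mul, norm_pow, norm_pow, norm_neg, norm_one, one_pow, mul_one]
    have h1 : ‖((p.choose k / p : ℕ) : L)‖ ≤ 1 := IsUltrametricDist.norm_natCast_le_one L _
    have h2 : ‖s‖ ^ (k - 1) ≤ max 1 (‖s‖ ^ (p - 2)) := by
      rcases le_total ‖s‖ 1 with h3 | h3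
      · exact le_max_of_le_left (pow_le_one₀ (norm_nonneg _) h3)
      · exact le_max_of_le_right (pow_le_pow_right₀ h3 (by omega))
    calc ‖s‖ ^ (k - 1) * ‖((p.choose k / p : ℕ) : L)‖ ≤ max 1 (‖s‖ ^ (p - 2)) * 1 :=
          mul_le_mul h2 h1 (norm_nonneg _) (le_max_of_le_left zero_le_one)
      _ = _ := mul_one _
  calc ‖s‖ * ‖S‖ ≤ ‖s‖ * max 1 (‖s‖ ^ (p - 2)) := mul_le_mul_of_nonneg_left hSb (norm_nonneg _)
    _ = max ‖s‖ (‖s‖ ^ (p - 1)) := by
      rw [mul_max_of_nonneg _ _ (norm_nonneg _), mul_one, ← pow_succ']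
      congr 2
      have := hp.two_le
      omega

theorem norm_two_eq_one {p : ℕ} (hodd : Odd p) (hp : ‖(p : L)‖ < 1) : ‖(2 : L)‖ = 1 := by
  obtain ⟨m, hm⟩ := hodd
  have h1 : ‖((m + 1 : ℕ) : L)‖ ≤ 1 := IsUltrametricDist.norm_natCast_le_one L _
  have h2 : ‖((2 : ℕ) : L)‖ ≤ 1 := IsUltrametricDist.norm_natCast_le_one L _
  rw [Nat.cast_ofNat] at h2
  have e : (1 : L) = 2 * ((m + 1 : ℕ) : L) - (p : L) := by
    rw [hm]; push_cast; ring
  have h3 : ‖(1 : L)‖ ≤ max ‖(2 : L) * ((m + 1 : ℕ) : L)‖ ‖(p : L)‖ := by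
    conv_lhs => rw [e]
    exact norm_sub_le_max' _ _
  rw [norm_one, norm_mul] at h3
  have h4 : 1 ≤ ‖(2 : L)‖ * ‖((m + 1 : ℕ) : L)‖ := by
    rcases le_max_iff.1 h3 with h | h
    · exact h
    · exact absurd h (not_le.2 hp)
  have h5 : ‖(2 : L)‖ * ‖((m + 1 : ℕ) : L)‖ ≤ ‖(2 : L)‖ * 1 :=
    mul_le_mul_of_nonneg_left h1 (norm_nonneg _)
  linarith

theorem norm_one_add_pow_sub_one_le {d : L} (hd : ‖d‖ ≤ 1) (m : ℕ) :
    ‖(1 + d) ^ m - 1‖ ≤ ‖d‖ := by
  induction m with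
  | zero => simp
  | succ m ih =>
    have e : (1 + d) ^ (m + 1) - 1 = ((1 + d) ^ m - 1) * (1 + d) + d := by ring
    rw [e]
    refine (norm_add_le_max' _ _).trans (max_le ?_ le_rfl)
    rw [norm_mul]
    have h1 : ‖1 + d‖ ≤ 1 := by
      refine (norm_add_le_max' _ _).trans (max_le ?_ hd)
      rw [norm_one]
    calc ‖(1 + d) ^ m - 1‖ * ‖1 + d‖ ≤ ‖d‖ * 1 :=
          mul_le_mul ih h1 (norm_nonneg _) (norm_nonneg _)
      _ = ‖d‖ := mul_one _

/-- The local computation above `p`: a solution of `u (u + 2) = y ^ p` has `u` or `u⁻¹` a `p`-th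
power times `1 + ε` with `‖ε‖ ^ 2 ≤ α ^ p`, where `‖p‖ = α ^ (p - 1)`. -/
theorem lambda_step {p : ℕ} (hp : p.Prime) (hodd : Odd p) {α : ℝ} (hα0 : 0 < α) (hα1 : α < 1)
    (hα : ‖(p : L)‖ = α ^ (p - 1)) {u y : L} (hu : u ≠ 0) (hu2 : u + 2 ≠ 0)
    (h : u * (u + 2) = y ^ p) :
    ∃ ρ ε : L, ρ ≠ 0 ∧ ‖ε‖ ^ 2 ≤ α ^ p ∧ (u = ρ ^ p * (1 + ε) ∨ u * (1 + ε) = ρ ^ p) := by
  have hp2 : 2 ≤ p := hp.two_le
  have hp3 : 3 ≤ p := by
    obtain ⟨m, hm⟩ := hodd
    omega
  have hplt : ‖(p : L)‖ < 1 := by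
    rw [hα]
    exact pow_lt_one₀ hα0.le hα1 (by omega)
  have h2 : ‖(2 : L)‖ = 1 := norm_two_eq_one hodd hplt
  have hy0 : y ≠ 0 := by
    rintro rfl
    rw [zero_pow (by omega)] at h
    exact (mul_ne_zero hu hu2) h
  obtain ⟨m, hm⟩ := hodd
  have hodd : Odd p := ⟨m, hm⟩
  set w : L := u + 1 with hw
  set s : L := y + 1 with hs
  have hww : w ^ 2 = y ^ p + 1 := by
    rw [hw, ← h]; ring
  have hB : ‖w ^ 2 - s ^ p‖ ≤ α ^ (p - 1) * max ‖s‖ (‖s‖ ^ (p - 1)) := by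
    have := binom_bound (L := L) hp hodd s
    rw [hα] at this
    have e : (s - 1) ^ p + 1 - s ^ p = w ^ 2 - s ^ p := by
      rw [hww, hs]; ring
    rwa [e] at this
  have hαpos : ∀ n : ℕ, 0 < α ^ n := fun n => pow_pos hα0 n
  have hα2 : (α ^ (p - 1)) ^ 2 ≤ α ^ p := by
    rw [← pow_mul]
    exact pow_le_pow_of_le_one hα0.le hα1.le (by omega)
  by_cases hsα : ‖s‖ ≤ α
  · -- `s` is small
    refine ⟨-1, -w, by simp, ?_, Or.inl ?_⟩
    · rw [norm_neg, ← norm_pow]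
      have h3 : w ^ 2 = (w ^ 2 - s ^ p) + s ^ p := by ring
      rw [h3]
      refine (norm_add_le_max' _ _).trans (max_le ?_ ?_)
      · refine hB.trans ?_
        have h4 : max ‖s‖ (‖s‖ ^ (p - 1)) ≤ α := by
          refine max_le hsα ?_
          calc ‖s‖ ^ (p - 1) ≤ ‖s‖ ^ 1 :=
                pow_le_pow_of_le_one (norm_nonneg _) (hsα.trans hα1.le) (by omega)
            _ = ‖s‖ := pow_one _
            _ ≤ α := hsα
        calc α ^ (p - 1) * max ‖s‖ (‖s‖ ^ (p - 1)) ≤ α ^ (p - 1) * α :=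
              mul_le_mul_of_nonneg_left h4 (hαpos _).le
          _ = α ^ p := by
            rw [← pow_succ]
            congr 1
            omega
      · rw [norm_pow]
        exact pow_le_pow_left₀ (norm_nonneg _) hsα p
    · rw [hodd.neg_one_pow, hw]; ring
  · push Not at hsα
    have hs0 : s ≠ 0 := by
      rintro h0
      rw [h0, norm_zero] at hsα
      exact absurd hsα (not_lt.2 hα0.le)
    have hsn : 0 < ‖s‖ := norm_pos_iff.2 hs0
    have hsp : s ^ p ≠ 0 := pow_ne_zero _ hs0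
    set δ : L := w ^ 2 / s ^ p - 1 with hδ
    have hδ1 : w ^ 2 = s ^ p * (1 + δ) := by
      rw [hδ]; field_simp; ring
    have hδn : ‖δ‖ * ‖s‖ ^ p ≤ α ^ (p - 1) * max ‖s‖ (‖s‖ ^ (p - 1)) := by
      have e : δ * s ^ p = w ^ 2 - s ^ p := by rw [hδ1]; ring
      rw [← norm_pow, ← norm_mul, e]
      exact hB
    set r : L := w / s ^ m with hr
    have hsm : s ^ m ≠ 0 := pow_ne_zero _ hs0
    have hrw : w = r * s ^ m := by rw [hr]; field_simp
    have hr2 : r ^ 2 = s * (1 + δ) := by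
      have e : s ^ p = s * (s ^ m) ^ 2 := by rw [hm]; ring
      rw [hr, div_pow, hδ1, e]
      field_simp
    -- the key relation
    have key : w * (1 + δ) ^ m = r ^ p := by
      have e : r ^ p = r * (r ^ 2) ^ m := by rw [hm]; ring
      rw [e, hr2, mul_pow, hrw]
      ring
    rcases le_or_gt ‖s‖ 1 with hs1 | hs1
    · -- `α < ‖s‖ ≤ 1`
      have hmax : max ‖s‖ (‖s‖ ^ (p - 1)) = ‖s‖ := by
        apply max_eq_left
        calc ‖s‖ ^ (p - 1) ≤ ‖s‖ ^ 1 := pow_le_pow_of_le_one (norm_nonneg _) hs1 (by omega)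
          _ = ‖s‖ := pow_one _
      rw [hmax] at hδn
      have hδ2 : ‖δ‖ * ‖s‖ ^ (p - 1) ≤ α ^ (p - 1) := by
        have e : ‖s‖ ^ p = ‖s‖ ^ (p - 1) * ‖s‖ := by
          rw [← pow_succ]; congr 1; omega
        rw [e, ← mul_assoc] at hδn
        exact le_of_mul_le_mul_right hδn hsn
      have hδ3 : ‖δ‖ < 1 := by
        by_contra hcon
        push Not at hcon
        have h5 : α ^ (p - 1) < ‖s‖ ^ (p - 1) := pow_lt_pow_left₀ hsα hα0.le (by omega)
        have h6 : ‖s‖ ^ (p - 1) ≤ ‖δ‖ * ‖s‖ ^ (p - 1) :=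
          le_mul_of_one_le_left (pow_nonneg (norm_nonneg _) _) hcon
        linarith
      have h1δ : ‖1 + δ‖ = 1 := by
        have h7 : ‖δ‖ < ‖(1 : L)‖ := by rw [norm_one]; exact hδ3
        rw [IsUltrametricDist.norm_add_eq_max_of_norm_ne_norm (ne_of_gt h7), norm_one]
        exact max_eq_left hδ3.le
      have hrn : ‖r‖ ^ 2 = ‖s‖ := by
        rw [← norm_pow, hr2, norm_mul, h1δ, mul_one]
      have hr1 : ‖r‖ ≤ 1 := by
        by_contra hcon
        push Not at hcon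
        have : 1 < ‖r‖ ^ 2 := one_lt_pow₀ hcon (by norm_num)
        linarith
      have hwn : ‖w‖ = ‖r‖ ^ p := by
        have := congrArg norm key
        rw [norm_mul, norm_pow, norm_pow, h1δ, one_pow, mul_one] at this
        exact this
      -- `‖w - r ^ p‖ ^ 2 ≤ α ^ p`
      have hA : ‖w - r ^ p‖ ^ 2 ≤ α ^ p := by
        have e : w - r ^ p = -(w * ((1 + δ) ^ m - 1)) := by rw [← key]; ring
        rw [e, norm_neg, norm_mul, mul_pow, hwn]
        have h8 : ‖(1 + δ) ^ m - 1‖ ≤ ‖δ‖ := norm_one_add_pow_sub_one_le hδ3.le m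
        have h9 : (‖r‖ ^ p) ^ 2 = ‖s‖ ^ p := by
          rw [← pow_mul, mul_comm, pow_mul, hrn]
        rw [h9]
        have h10 : ‖(1 + δ) ^ m - 1‖ ^ 2 ≤ ‖δ‖ ^ 2 := pow_le_pow_left₀ (norm_nonneg _) h8 2
        have h11 : ‖s‖ ^ p * ‖(1 + δ) ^ m - 1‖ ^ 2 ≤ ‖s‖ ^ p * ‖δ‖ ^ 2 :=
          mul_le_mul_of_nonneg_left h10 (pow_nonneg (norm_nonneg _) _)
        refine h11.trans ?_
        -- multiply by `‖s‖ ^ (p - 2)`
        have hpos : 0 < ‖s‖ ^ (p - 2) := pow_pos hsn _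
        refine le_of_mul_le_mul_right ?_ hpos
        have e1 : ‖s‖ ^ p * ‖δ‖ ^ 2 * ‖s‖ ^ (p - 2) = (‖δ‖ * ‖s‖ ^ (p - 1)) ^ 2 := by
          have e2 : ‖s‖ ^ p * ‖s‖ ^ (p - 2) = (‖s‖ ^ (p - 1)) ^ 2 := by
            rw [← pow_add, ← pow_mul]; congr 1; omega
          rw [mul_pow, ← e2]; ring
        rw [e1]
        have h12 : (‖δ‖ * ‖s‖ ^ (p - 1)) ^ 2 ≤ (α ^ (p - 1)) ^ 2 :=
          pow_le_pow_left₀ (mul_nonneg (norm_nonneg _) (pow_nonneg (norm_nonneg _) _)) hδ2 2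
        refine h12.trans ?_
        have e3 : (α ^ (p - 1)) ^ 2 = α ^ p * α ^ (p - 2) := by
          rw [← pow_add, ← pow_mul]; congr 1; omega
        rw [e3]
        exact mul_le_mul_of_nonneg_left (pow_le_pow_left₀ hα0.le hsα.le _) (hαpos _).le
      have hmaxr : max ‖r‖ (‖r‖ ^ (p - 1)) ≤ 1 := max_le hr1 (pow_le_one₀ (norm_nonneg _) hr1)
      have hB1 : ‖(r - 1) ^ p + 1 - r ^ p‖ ^ 2 ≤ α ^ p := by
        have h13 := binom_bound (L := L) hp hodd r
        rw [hα] at h13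
        have h14 : ‖(r - 1) ^ p + 1 - r ^ p‖ ≤ α ^ (p - 1) :=
          h13.trans (mul_le_of_le_one_right (hαpos _).le hmaxr)
        exact (pow_le_pow_left₀ (norm_nonneg _) h14 2).trans hα2
      have hB2 : ‖(r + 1) ^ p - 1 - r ^ p‖ ^ 2 ≤ α ^ p := by
        have h13 := binom_bound (L := L) hp hodd (-r)
        rw [hα, norm_neg] at h13
        have e : (-r - 1) ^ p + 1 - (-r) ^ p = -((r + 1) ^ p - 1 - r ^ p) := by
          have e1 : (-r - 1) ^ p = -((r + 1) ^ p) := by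
            rw [← hodd.neg_pow]; congr 1; ring
          rw [e1, hodd.neg_pow]; ring
        rw [e, norm_neg] at h13
        have h14 : ‖(r + 1) ^ p - 1 - r ^ p‖ ≤ α ^ (p - 1) :=
          h13.trans (mul_le_of_le_one_right (hαpos _).le hmaxr)
        exact (pow_le_pow_left₀ (norm_nonneg _) h14 2).trans hα2
      have sqmax : ∀ a b : L, ‖a‖ ^ 2 ≤ α ^ p → ‖b‖ ^ 2 ≤ α ^ p → ‖a - b‖ ^ 2 ≤ α ^ p := by
        intro a b ha hb
        rcases le_total ‖a‖ ‖b‖ with h15 | h15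
        · exact (pow_le_pow_left₀ (norm_nonneg _)
            ((norm_sub_le_max' a b).trans (max_le h15 le_rfl)) 2).trans hb
        · exact (pow_le_pow_left₀ (norm_nonneg _)
            ((norm_sub_le_max' a b).trans (max_le le_rfl h15)) 2).trans ha
      by_cases hcase : ‖r - 1‖ = 1
      · have hρ : r - 1 ≠ 0 := by
          intro h0; rw [h0, norm_zero] at hcase; exact zero_ne_one hcase
        refine ⟨r - 1, u / (r - 1) ^ p - 1, hρ, ?_, Or.inl ?_⟩
        · have e : u / (r - 1) ^ p - 1 =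
              ((w - r ^ p) - ((r - 1) ^ p + 1 - r ^ p)) / (r - 1) ^ p := by
            rw [eq_div_iff (pow_ne_zero _ hρ), sub_mul, div_mul_cancel₀ _ (pow_ne_zero _ hρ), hw]
            ring
          rw [e, norm_div, norm_pow, hcase, one_pow, div_one]
          exact sqmax _ _ hA hB1
        · rw [add_sub_cancel, mul_div_cancel₀ _ (pow_ne_zero _ hρ)]
      · have hr1' : ‖r - 1‖ < 1 := by
          refine lt_of_le_of_ne ?_ hcase
          refine (norm_sub_le_max' _ _).trans (max_le hr1 ?_)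
          rw [norm_one]
        have hcase2 : ‖r + 1‖ = 1 := by
          have e : r + 1 = (r - 1) + 2 := by ring
          have hne : ‖r - 1‖ ≠ ‖(2 : L)‖ := by rw [h2]; exact hr1'.ne
          rw [e, IsUltrametricDist.norm_add_eq_max_of_norm_ne_norm hne, h2]
          exact max_eq_right hr1'.le
        have hρ : r + 1 ≠ 0 := by
          intro h0; rw [h0, norm_zero] at hcase2; exact zero_ne_one hcase2
        refine ⟨y / (r + 1), (u + 2) / (r + 1) ^ p - 1, div_ne_zero hy0 hρ, ?_, Or.inr ?_⟩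
        · have e : (u + 2) / (r + 1) ^ p - 1 =
              ((w - r ^ p) - ((r + 1) ^ p - 1 - r ^ p)) / (r + 1) ^ p := by
            rw [eq_div_iff (pow_ne_zero _ hρ), sub_mul, div_mul_cancel₀ _ (pow_ne_zero _ hρ), hw]
            ring
          rw [e, norm_div, norm_pow, hcase2, one_pow, div_one]
          exact sqmax _ _ hA hB2
        · rw [add_sub_cancel, div_pow, ← h]
          ring
    · -- `1 < ‖s‖`
      have hmax : max ‖s‖ (‖s‖ ^ (p - 1)) = ‖s‖ ^ (p - 1) := by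
        apply max_eq_right
        calc ‖s‖ = ‖s‖ ^ 1 := (pow_one _).symm
          _ ≤ ‖s‖ ^ (p - 1) := pow_le_pow_right₀ hs1.le (by omega)
      rw [hmax] at hδn
      have hδ2 : ‖δ‖ ≤ α ^ (p - 1) := by
        have e : ‖s‖ ^ p = ‖s‖ * ‖s‖ ^ (p - 1) := by
          rw [← pow_succ']; congr 1; omega
        rw [e, ← mul_assoc] at hδn
        have h16 : ‖δ‖ * ‖s‖ ≤ α ^ (p - 1) :=
          le_of_mul_le_mul_right hδn (pow_pos hsn _)
        exact (le_mul_of_one_le_right (norm_nonneg _) hs1.le).trans h16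
      have hαlt : α ^ (p - 1) < 1 := pow_lt_one₀ hα0.le hα1 (by omega)
      have hδ3 : ‖δ‖ < 1 := hδ2.trans_lt hαlt
      have h1δ : ‖1 + δ‖ = 1 := by
        have h7 : ‖δ‖ < ‖(1 : L)‖ := by rw [norm_one]; exact hδ3
        rw [IsUltrametricDist.norm_add_eq_max_of_norm_ne_norm (ne_of_gt h7), norm_one]
        exact max_eq_left hδ3.le
      have hrn : ‖r‖ ^ 2 = ‖s‖ := by
        rw [← norm_pow, hr2, norm_mul, h1δ, mul_one]
      have hr1 : 1 < ‖r‖ := by
        by_contra hcon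
        push Not at hcon
        have : ‖r‖ ^ 2 ≤ 1 := pow_le_one₀ (norm_nonneg _) hcon
        linarith
      have hwn : ‖w‖ = ‖r‖ ^ p := by
        have := congrArg norm key
        rw [norm_mul, norm_pow, norm_pow, h1δ, one_pow, mul_one] at this
        exact this
      have hrm : ‖r - 1‖ = ‖r‖ := by
        have hne : ‖r‖ ≠ ‖(-1 : L)‖ := by rw [norm_neg, norm_one]; exact hr1.ne'
        rw [sub_eq_add_neg, IsUltrametricDist.norm_add_eq_max_of_norm_ne_norm hne, norm_neg,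
          norm_one]
        exact max_eq_left hr1.le
      have hρ : r - 1 ≠ 0 := by
        intro h0; rw [h0, norm_zero] at hrm; linarith
      have hrp : 0 < ‖r‖ ^ p := pow_pos (by linarith) _
      have hA : ‖w - r ^ p‖ ≤ α ^ (p - 1) * ‖r‖ ^ p := by
        have e : w - r ^ p = -(w * ((1 + δ) ^ m - 1)) := by rw [← key]; ring
        rw [e, norm_neg, norm_mul, hwn, mul_comm]
        exact mul_le_mul_of_nonneg_right
          ((norm_one_add_pow_sub_one_le hδ3.le m).trans hδ2) hrp.le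
      have hB1 : ‖(r - 1) ^ p + 1 - r ^ p‖ ≤ α ^ (p - 1) * ‖r‖ ^ p := by
        have h13 := binom_bound (L := L) hp hodd r
        rw [hα] at h13
        refine h13.trans (mul_le_mul_of_nonneg_left (max_le ?_ ?_) (hαpos _).le)
        · calc ‖r‖ = ‖r‖ ^ 1 := (pow_one _).symm
            _ ≤ ‖r‖ ^ p := pow_le_pow_right₀ hr1.le (by omega)
        · exact pow_le_pow_right₀ hr1.le (by omega)
      refine ⟨r - 1, u / (r - 1) ^ p - 1, hρ, ?_, Or.inl ?_⟩
      · have e : u / (r - 1) ^ p - 1 =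
            ((w - r ^ p) - ((r - 1) ^ p + 1 - r ^ p)) / (r - 1) ^ p := by
          rw [eq_div_iff (pow_ne_zero _ hρ), sub_mul, div_mul_cancel₀ _ (pow_ne_zero _ hρ), hw]
          ring
        have h17 : ‖u / (r - 1) ^ p - 1‖ ≤ α ^ (p - 1) := by
          rw [e, norm_div, norm_pow, hrm, div_le_iff₀ hrp]
          exact (norm_sub_le_max' _ _).trans (max_le hA hB1)
        exact (pow_le_pow_left₀ (norm_nonneg _) h17 2).trans hα2
      · rw [add_sub_cancel, mul_div_cancel₀ _ (pow_ne_zero _ hρ)]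

end Pool.Agent.MP009fd8J
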