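import Pool.Agent.Lib.MP_009fd8_agJ.Def
import Pool.Agent.Lib.MP_009fd8_agJ.NormTools
import Pool.Agent.Lib.MP_009fd8_agJ.Lambda

/-!
MP_009fd8_ag, all odd p: the places above p.
-/

namespace Pool.Agent.MP009fd8J

universe u

/-- `a` is a `p`-th power times `1 + z` with `‖z‖ ≤ β`. -/
def Near {k : Type*} [NormedField k] (p : ℕ) (β : ℝ) (a : k) : Prop :=
  ∃ c z : k, c ≠ 0 ∧ ‖z‖ ≤ β ∧ a = c ^ p * (1 + z)

theorem Near.mul {k : Type*} [NormedField k] [IsUltrametricDist k] {p : ℕ} {β : ℝ} (hβ : β < 1)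
    {a b : k} (ha : Near p β a) (hb : Near p β b) : Near p β (a * b) := by
  obtain ⟨c, z, hc, hz, rfl⟩ := ha
  obtain ⟨c', z', hc', hz', rfl⟩ := hb
  refine ⟨c * c', z + z' + z * z', mul_ne_zero hc hc', ?_, by ring⟩
  refine (norm_add_le_max' _ _).trans (max_le ((norm_add_le_max' _ _).trans (max_le hz hz')) ?_)
  rw [norm_mul]
  have h0 : 0 ≤ β := (norm_nonneg _).trans hz
  calc ‖z‖ * ‖z'‖ ≤ β * 1 := mul_le_mul hz (hz'.trans hβ.le) (norm_nonneg _) h0
    _ = β := mul_one _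

theorem norm_one_add_eq_one {k : Type*} [NormedField k] [IsUltrametricDist k] {z : k}
    (hz : ‖z‖ < 1) : ‖1 + z‖ = 1 := by
  have h7 : ‖z‖ < ‖(1 : k)‖ := by rw [norm_one]; exact hz
  rw [IsUltrametricDist.norm_add_eq_max_of_norm_ne_norm (ne_of_gt h7), norm_one]
  exact max_eq_left hz.le

theorem Near.inv {k : Type*} [NormedField k] [IsUltrametricDist k] {p : ℕ} {β : ℝ} (hβ : β < 1)
    {a : k} (ha : Near p β a) : Near p β a⁻¹ := by
  obtain ⟨c, z, hc, hz, rfl⟩ := ha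
  have h1 : ‖1 + z‖ = 1 := norm_one_add_eq_one (hz.trans_lt hβ)
  have h2 : 1 + z ≠ 0 := by
    intro h0; rw [h0, norm_zero] at h1; exact zero_ne_one h1
  refine ⟨c⁻¹, -z / (1 + z), inv_ne_zero hc, ?_, ?_⟩
  · rw [norm_div, norm_neg, h1, div_one]; exact hz
  · have e : 1 + -z / (1 + z) = (1 + z)⁻¹ := by
      field_simp; ring
    rw [e, mul_inv, inv_pow]

theorem norm_two_pow_sub_two_le {k : Type*} [NormedField k] [IsUltrametricDist k] {p : ℕ}
    (hp : p.Prime) : ‖(2 : k) ^ p - 2‖ ≤ ‖(p : k)‖ := by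
  haveI := Fact.mk hp
  have h1 : ((2 ^ p - 2 : ℤ) : ZMod p) = 0 := by
    push_cast
    rw [ZMod.pow_card, sub_self]
  obtain ⟨t, ht⟩ := (ZMod.intCast_zmod_eq_zero_iff_dvd (2 ^ p - 2) p).1 h1
  have h2 : (2 : k) ^ p - 2 = (p : k) * (t : k) := by
    have := congrArg (fun z : ℤ => (z : k)) ht
    push_cast at this
    exact this
  rw [h2, norm_mul]
  exact mul_le_of_le_one_right (norm_nonneg _) (IsUltrametricDist.norm_intCast_le_one k t)

/-- At a place above `p` where `n` is twice a `p`-th power, the image of `J_n(k)` consists of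
elements `c ^ p * (1 + z)` with `‖z‖ ^ 2 ≤ ‖π‖ ^ p`, `π = 1 - ζ`, `α = ‖π‖`. -/
theorem image_at_p_sq {k : Type u} [NontriviallyNormedField k] [IsUltrametricDist k]
    [CompleteSpace k] [CharZero k] (p : ℕ) (hp : p.Prime) (hp2 : p ≠ 2) (α : ℝ) (hα0 : 0 < α)
    (hα1 : α < 1) (hα : ‖(p : k)‖ = α ^ (p - 1))
    (g : k) (hg : g ≠ 0) {a : k} (h : InImage p (2 * g ^ p) a) :
    ∃ c z : k, c ≠ 0 ∧ ‖z‖ ^ 2 ≤ α ^ p ∧ a = c ^ p * (1 + z) := by
  have hodd : Odd p := hp.odd_of_ne_two hp2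
  have hp3 : 3 ≤ p := by
    obtain ⟨m, hm⟩ := hodd
    have := hp.two_le
    omega
  set β : ℝ := Real.sqrt (α ^ p) with hβ
  have hαp : 0 < α ^ p := pow_pos hα0 _
  have hβ0 : 0 < β := Real.sqrt_pos.2 hαp
  have hsq : α ^ p = β ^ 2 := (Real.sq_sqrt hαp.le).symm
  have hβ1 : β < 1 := by
    have h1 : α ^ p < 1 := pow_lt_one₀ hα0.le hα1 (by omega)
    rw [hsq] at h1
    by_contra hcon
    push Not at hcon
    have h2 : 1 ≤ β ^ 2 := one_le_pow₀ hcon
    linarith
  have hconv : ∀ z : k, ‖z‖ ^ 2 ≤ α ^ p ↔ ‖z‖ ≤ β := by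
    intro z
    rw [hsq]
    exact pow_le_pow_iff_left₀ (norm_nonneg _) hβ0.le (by norm_num)
  suffices hmain : Near p β a by
    obtain ⟨c, z, hc, hz, e⟩ := hmain
    exact ⟨c, z, hc, (hconv z).2 hz, e⟩
  have hplt : ‖(p : k)‖ < 1 := by
    rw [hα]
    exact pow_lt_one₀ hα0.le hα1 (by omega)
  have h2 : ‖(2 : k)‖ = 1 := norm_two_eq_one hodd hplt
  have h20 : (2 : k) ≠ 0 := by
    intro h0; rw [h0, norm_zero] at h2; exact zero_ne_one h2
  refine InImage.induction (P := Near p β) ?_ ?_ ?_ ?_ ?_ h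
  · intro c hc
    exact ⟨c, 0, hc, by rw [norm_zero]; exact hβ0.le, by ring⟩
  · intro _
    refine ⟨2 * g, 2 / 2 ^ p - 1, mul_ne_zero h20 hg, ?_, ?_⟩
    · have e : (2 : k) / 2 ^ p - 1 = -((2 ^ p - 2) / 2 ^ p) := by
        field_simp; ring
      rw [e, norm_neg, norm_div, norm_pow, h2, one_pow, div_one]
      refine (norm_two_pow_sub_two_le hp).trans ?_
      rw [hα]
      refine (pow_le_pow_iff_left₀ (pow_nonneg hα0.le _) hβ0.le (two_ne_zero)).1 ?_
      rw [← hsq, ← pow_mul]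
      exact pow_le_pow_of_le_one hα0.le hα1.le (by omega)
    · rw [mul_pow, add_sub_cancel]
      field_simp
  · intro b _ hb
    obtain ⟨L, i1, i2, hfd, hlt, x, y, hx, hx2, hxy, rfl⟩ := hb
    letI := i1
    letI := i2
    haveI := hfd
    let j1 : NormedField L := spectralNorm.normedField k L
    let j2 : NormedAlgebra k L := spectralNorm.normedAlgebra k L
    haveI j3 : IsUltrametricDist L :=
      IsUltrametricDist.isUltrametricDist_of_isNonarchimedean_norm isNonarchimedean_spectralNorm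
    have hnorm : ∀ t : L, ‖t‖ = spectralNorm k L t := fun t => rfl
    have hpL : ‖(p : L)‖ = α ^ (p - 1) := by
      rw [← hα, ← map_natCast (algebraMap k L) p]
      exact norm_algebraMap' L (p : k)
    set G : L := algebraMap k L g with hG
    have hG0 : G ≠ 0 := by
      rw [hG]; exact (map_ne_zero (algebraMap k L)).2 hg
    have hGp : G ^ p ≠ 0 := pow_ne_zero _ hG0
    have halg : algebraMap k L (2 * g ^ p) = 2 * G ^ p := by
      rw [map_mul, map_pow, map_ofNat]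
    rw [halg] at hx2 hxy
    set u : L := x / G ^ p with hu
    have hxu : x = G ^ p * u := by rw [hu]; field_simp
    have hu0 : u ≠ 0 := div_ne_zero hx hGp
    have hu2 : u + 2 ≠ 0 := by
      intro h0
      apply hx2
      rw [hxu]
      linear_combination (G ^ p) * h0
    have hequ : u * (u + 2) = (y / G ^ 2) ^ p := by
      have e : (G ^ 2) ^ p = G ^ p * G ^ p := by rw [← pow_mul, two_mul, pow_add]
      rw [div_pow, e, ← hxy, hxu]
      field_simp
    have hN1 : ∀ ε : L, ‖ε‖ ^ 2 ≤ α ^ p → ∃ z : k, ‖z‖ ≤ β ∧ Algebra.norm k (1 + ε) = 1 + z := by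
      intro ε hε
      have hε1 : ‖ε‖ ≤ 1 := by
        by_contra hcon
        push Not at hcon
        have h3 : 1 < ‖ε‖ ^ 2 := one_lt_pow₀ hcon (by norm_num)
        have h4 : α ^ p ≤ 1 := pow_le_one₀ hα0.le hα1.le
        linarith
      refine ⟨Algebra.norm k (1 + ε) - 1, ?_, by ring⟩
      have h5 : ‖Algebra.norm k (1 + ε) - 1‖ ≤ ‖ε‖ := by
        rw [hnorm]
        exact norm_algebraNorm_one_add_sub_one ε (by rw [← hnorm]; exact hε1)
      rw [← hconv]
      exact (pow_le_pow_left₀ (norm_nonneg _) h5 2).trans hε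
    have hNG : Algebra.norm k (G ^ p) = (g ^ Module.finrank k L) ^ p := by
      rw [map_pow, hG, Algebra.norm_algebraMap]
    have hNear1 : Near p β (Algebra.norm k (G ^ p)) := by
      rw [hNG]
      exact ⟨g ^ Module.finrank k L, 0, pow_ne_zero _ hg, by rw [norm_zero]; exact hβ0.le, by ring⟩
    have hNear2 : Near p β (Algebra.norm k u) := by
      obtain ⟨ρ, ε, hρ, hε, hcase⟩ := lambda_step hp hodd hα0 hα1 hpL hu0 hu2 hequ
      have hNρ : Algebra.norm k ρ ≠ 0 := Algebra.norm_ne_zero_iff.2 hρ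
      obtain ⟨z, hz, hNz⟩ := hN1 ε hε
      rcases hcase with hcase | hcase
      · refine ⟨Algebra.norm k ρ, z, hNρ, hz, ?_⟩
        rw [hcase, map_mul, map_pow, hNz]
      · have h1z : ‖1 + z‖ = 1 := norm_one_add_eq_one (hz.trans_lt hβ1)
        have h1z0 : 1 + z ≠ 0 := by
          intro h0; rw [h0, norm_zero] at h1z; exact zero_ne_one h1z
        refine ⟨Algebra.norm k ρ, -z / (1 + z), hNρ, ?_, ?_⟩
        · rw [norm_div, norm_neg, h1z, div_one]; exact hz
        · have e := congrArg (Algebra.norm k) hcase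
          rw [map_mul, map_pow, hNz] at e
          have e2 : 1 + -z / (1 + z) = (1 + z)⁻¹ := by
            field_simp; ring
          rw [e2, ← e, mul_assoc, mul_inv_cancel₀ h1z0, mul_one]
    rw [hxu, map_mul]
    exact hNear1.mul hβ1 hNear2
  · intro a b _ _ ha hb
    exact ha.mul hβ1 hb
  · intro a _ ha
    exact ha.inv hβ1

/-- At a place above `p` where `n` is twice a `p`-th power, the image of `J_n(k)` consists of
elements that are `p`-th powers modulo `π ^ ((p + 1) / 2)`. Here `α = ‖π‖`, `π = 1 - ζ`, and `hdisc`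
is the discreteness of the norm (`p` is odd). -/
theorem image_at_p {k : Type u} [NontriviallyNormedField k] [IsUltrametricDist k]
    [CompleteSpace k] [CharZero k] (p : ℕ) (hp : p.Prime) (hp2 : p ≠ 2) (α : ℝ) (hα0 : 0 < α)
    (hα1 : α < 1) (hα : ‖(p : k)‖ = α ^ (p - 1))
    (hdisc : ∀ x : k, ‖x‖ ^ 2 ≤ α ^ p → ‖x‖ ^ 2 ≤ α ^ (p + 1))
    (g : k) (hg : g ≠ 0) {a : k} (h : InImage p (2 * g ^ p) a) :
    ∃ c z : k, c ≠ 0 ∧ ‖z‖ ^ 2 ≤ α ^ (p + 1) ∧ a = c ^ p * (1 + z) := by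
  obtain ⟨c, z, hc, hz, e⟩ := image_at_p_sq p hp hp2 α hα0 hα1 hα g hg h
  exact ⟨c, z, hc, hdisc z hz, e⟩

end Pool.Agent.MP009fd8J
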