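import Mathlib

/-!
MP_009fd8_ag, all odd p, leaf file: in a number field of class number prime to p, an element all of
whose valuations are p-th powers is a unit times a p-th power.
-/

namespace Pool.Agent.MP009fd8J

open IsDedekindDomain NumberField UniqueFactorizationMonoid

/-- A multiset with multiplicities divisible by `p` is `p` times a multiset. -/
private theorem exists_nsmul_p {α : Type*} [DecidableEq α] (p : ℕ) (s : Multiset α)
    (h : ∀ q ∈ s, p ∣ s.count q) : ∃ t : Multiset α, s = p • t := by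
  refine ⟨∑ q ∈ s.toFinset, (s.count q / p) • {q}, ?_⟩
  rw [← Finset.sum_nsmul]
  conv_lhs => rw [← Multiset.toFinset_sum_count_nsmul_eq s]
  refine Finset.sum_congr rfl fun q hq => ?_
  rw [← mul_nsmul', Nat.mul_div_cancel' (h q (Multiset.mem_toFinset.1 hq))]

/-- An ideal with multiplicities divisible by `p` is a `p`-th power. -/
private theorem ideal_exists_pow {R : Type*} [CommRing R] [IsDedekindDomain R] (p : ℕ)
    (I : Ideal R) (hI : I ≠ ⊥) (h : ∀ v : HeightOneSpectrum R, p ∣ multiplicity v.asIdeal I) :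
    ∃ J : Ideal R, I = J ^ p := by
  classical
  obtain ⟨t, ht⟩ := exists_nsmul_p p (normalizedFactors I) (by
    intro q hq
    have hqr : Prime q := prime_of_normalized_factor q hq
    have hq0 : q ≠ ⊥ := hqr.ne_zero
    let v : HeightOneSpectrum R := ⟨q, Ideal.isPrime_of_prime hqr, hq0⟩
    have h1 := h v
    have hfm : FiniteMultiplicity q I := FiniteMultiplicity.of_prime_left hqr hI
    have h2 := emultiplicity_eq_count_normalizedFactors hqr.irreducible hI
    rw [normalize_eq, hfm.emultiplicity_eq_multiplicity] at h2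
    have h3 : multiplicity q I = (normalizedFactors I).count q := by exact_mod_cast h2
    rw [← h3]
    exact h1)
  refine ⟨t.prod, ?_⟩
  rw [← Ideal.prod_normalizedFactors_eq_self hI, ht, Multiset.prod_nsmul]

/-- Powers of `exp k`. -/
private theorem exp_pow_p (k : ℤ) (p : ℕ) :
    (WithZero.exp k) ^ p = WithZero.exp ((p : ℤ) * k) := by
  induction p with
  | zero => simp
  | succ p ih =>
    rw [pow_succ, ih, ← WithZero.exp_add]
    congr 1
    push_cast
    ring

/-- `exp (-m)` is a `p`-th power only for `m` divisible by `p`. -/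
private theorem dvd_of_exp_pow {m p : ℕ} (hp : p ≠ 0)
    (h : ∃ y, WithZero.exp (-(m : ℤ)) = y ^ p) : p ∣ m := by
  obtain ⟨y, hy⟩ := h
  have hy0 : y ≠ 0 := by
    rintro rfl
    rw [zero_pow hp] at hy
    simp at hy
  obtain ⟨k, hk⟩ : ∃ k : ℤ, y = WithZero.exp k := ⟨WithZero.log y, (WithZero.exp_log hy0).symm⟩
  rw [hk, exp_pow_p, WithZero.exp_inj] at hy
  have h1 : (p : ℤ) ∣ (m : ℤ) := ⟨-k, by linarith⟩
  exact_mod_cast h1

/-- Copy of `exists_unit_mul_cube` in Pool/Agent/Lib/MP_009fd8_agT/Class.lean with 3 replaced by a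
prime `p`. -/
theorem exists_unit_mul_pow {K : Type*} [Field K] [NumberField K] (p : ℕ) (hp : p.Prime)
    (hclass : ¬ p ∣ NumberField.classNumber K) (x : K) (hx : x ≠ 0)
    (hv : ∀ v : HeightOneSpectrum (𝓞 K), ∃ w, v.valuation K x = w ^ p) :
    ∃ (u : (𝓞 K)ˣ) (r : K), r ≠ 0 ∧ x = algebraMap (𝓞 K) K (u : 𝓞 K) * r ^ p := by
  obtain ⟨n, d, hd, hxnd⟩ := IsFractionRing.div_surjective (A := 𝓞 K) x
  have hd0 : d ≠ 0 := nonZeroDivisors.ne_zero hd
  have hdK : algebraMap (𝓞 K) K d ≠ 0 := by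
    simpa using hd0
  have hn0 : n ≠ 0 := by
    rintro rfl
    apply hx
    rw [← hxnd]; simp
  obtain ⟨q, hq⟩ : ∃ q, p = q + 1 := ⟨p - 1, by have := hp.pos; omega⟩
  set y : 𝓞 K := n * d ^ q with hy
  have hy0 : y ≠ 0 := mul_ne_zero hn0 (pow_ne_zero q hd0)
  have hyx : algebraMap (𝓞 K) K y = x * (algebraMap (𝓞 K) K d) ^ p := by
    rw [hy, map_mul, map_pow, ← hxnd, hq, pow_succ]
    field_simp
  have hev : ∀ v : HeightOneSpectrum (𝓞 K), p ∣ multiplicity v.asIdeal (Ideal.span {y}) := by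
    intro v
    apply dvd_of_exp_pow hp.ne_zero
    have e0 : v.valuation K (algebraMap (𝓞 K) K y) = v.intValuation y :=
      v.valuation_of_algebraMap y
    obtain ⟨w, hw⟩ := hv v
    refine ⟨w * v.valuation K (algebraMap (𝓞 K) K d), ?_⟩
    rw [← v.intValuation_eq_exp_neg_multiplicity hy0, ← e0, hyx, map_mul, map_pow, hw, mul_pow]
  have hspan : Ideal.span {y} ≠ ⊥ := by
    rw [Ne, Ideal.span_singleton_eq_bot]; exact hy0
  obtain ⟨J, hJ⟩ := ideal_exists_pow p _ hspan hev
  have hJ0 : J ≠ 0 := by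
    rintro rfl
    rw [zero_pow hp.ne_zero] at hJ
    exact hspan hJ
  let J' : nonZeroDivisors (Ideal (𝓞 K)) := ⟨J, mem_nonZeroDivisors_of_ne_zero hJ0⟩
  have hJ2 : ClassGroup.mk0 J' ^ p = 1 := by
    rw [← map_pow, ClassGroup.mk0_eq_one_iff]
    refine ⟨⟨y, ?_⟩⟩
    change J ^ p = _
    rw [← hJ]
  have hJ1 : ClassGroup.mk0 J' = 1 := by
    rw [← orderOf_eq_one_iff]
    have h1 := orderOf_dvd_of_pow_eq_one hJ2
    have h2 := orderOf_dvd_card (x := ClassGroup.mk0 J')
    have h3 : Nat.Coprime p (Fintype.card (ClassGroup (𝓞 K))) :=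
      (Nat.Prime.coprime_iff_not_dvd hp).2 hclass
    exact Nat.Coprime.eq_one_of_dvd (Nat.Coprime.coprime_dvd_left h1 h3) h2
  rw [ClassGroup.mk0_eq_one_iff] at hJ1
  obtain ⟨⟨r, hr⟩⟩ := hJ1
  have hr' : J = Ideal.span {r} := hr
  rw [hr', Ideal.span_singleton_pow, Ideal.span_singleton_eq_span_singleton] at hJ
  obtain ⟨u, hu⟩ := hJ.symm
  have hr0 : r ≠ 0 := by
    rintro rfl
    apply hJ0
    rw [hr']; simp
  have hdp : (algebraMap (𝓞 K) K d) ^ p ≠ 0 := pow_ne_zero p hdK
  refine ⟨u, algebraMap (𝓞 K) K r / algebraMap (𝓞 K) K d, div_ne_zero (by simpa using hr0) hdK, ?_⟩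
  have e1 : x = algebraMap (𝓞 K) K y / (algebraMap (𝓞 K) K d) ^ p := by
    rw [hyx, mul_div_assoc, div_self hdp, mul_one]
  rw [e1, ← hu, map_mul, map_pow, div_pow]
  ring

end Pool.Agent.MP009fd8J
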