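import Mathlib
import Pool.Agent.Lib.MP_12adaf_nt.Disc

/-!
MP_009fd8_ag, all odd p: the valuation of p in a field containing a primitive p-th root of unity,
discreteness.
-/

namespace Pool.Agent.MP009fd8J

open IsDedekindDomain NumberField Polynomial

theorem valuation_root_of_unity {K : Type*} [Field K] {Γ : Type*}
    [LinearOrderedCommGroupWithZero Γ] (v : Valuation K Γ) {p : ℕ} (hp : p ≠ 0) {ζ : K}
    (hζ : ζ ^ p = 1) : v ζ = 1 := by
  have h : (v ζ) ^ p = 1 := by rw [← map_pow, hζ, map_one]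
  exact (pow_eq_one_iff.1 h).resolve_right hp

theorem valuation_one_sub_le {K : Type*} [Field K] {Γ : Type*}
    [LinearOrderedCommGroupWithZero Γ] (v : Valuation K Γ) {p : ℕ} (hp : p ≠ 0) {ζ μ : K}
    (hζ : IsPrimitiveRoot ζ p) (hμ : IsPrimitiveRoot μ p) : v (1 - μ) ≤ v (1 - ζ) := by
  haveI : NeZero p := ⟨hp⟩
  obtain ⟨i, _, rfl⟩ := hζ.eq_pow_of_pow_eq_one hμ.pow_eq_one
  rw [← mul_neg_geom_sum ζ i, map_mul]
  refine mul_le_of_le_one_right' ?_
  refine Valuation.map_sum_le v ?_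
  intro j _
  rw [map_pow, valuation_root_of_unity v hp hζ.pow_eq_one, one_pow]

/-- `v(p) = v(1 - ζ) ^ (p - 1)`. -/
theorem valuation_p {K : Type*} [Field K] {Γ : Type*} [LinearOrderedCommGroupWithZero Γ]
    (v : Valuation K Γ) {p : ℕ} (hp : p.Prime) {ζ : K} (hζ : IsPrimitiveRoot ζ p) :
    v (p : K) = v (1 - ζ) ^ (p - 1) := by
  haveI := Fact.mk hp
  have h1 : (p : K) = ∏ μ ∈ primitiveRoots p K, (1 - μ) := by
    have h2 := Polynomial.eval_one_cyclotomic_prime (R := K) (p := p)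
    rw [Polynomial.cyclotomic_eq_prod_X_sub_primitiveRoots hζ, Polynomial.eval_prod] at h2
    rw [← h2]
    refine Finset.prod_congr rfl fun μ _ => ?_
    simp
  rw [h1, map_prod]
  have h3 : ∀ μ ∈ primitiveRoots p K, v (1 - μ) = v (1 - ζ) := by
    intro μ hμ
    have hμ' : IsPrimitiveRoot μ p := (mem_primitiveRoots hp.pos).1 hμ
    exact le_antisymm (valuation_one_sub_le v hp.ne_zero hζ hμ')
      (valuation_one_sub_le v hp.ne_zero hμ' hζ)
  rw [Finset.prod_congr rfl h3, Finset.prod_const, hζ.card_primitiveRoots,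
    Nat.totient_prime hp]

section

variable {K : Type*} [Field K] [NumberField K] (v : HeightOneSpectrum (𝓞 K))

theorem valued_algebraMap (x : K) :
    Valued.v (algebraMap K (v.adicCompletion K) x) = v.valuation K x :=
  v.valuedAdicCompletion_eq_valuation' x

theorem norm_le_iff_valued (x y : v.adicCompletion K) : ‖x‖ ≤ ‖y‖ ↔ Valued.v x ≤ Valued.v y :=
  Valued.toNormedField.norm_le_iff

theorem norm_eq_iff_valued (x y : v.adicCompletion K) : ‖x‖ = ‖y‖ ↔ Valued.v x = Valued.v y := by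
  constructor
  · intro h
    exact le_antisymm ((norm_le_iff_valued v x y).1 h.le) ((norm_le_iff_valued v y x).1 h.ge)
  · intro h
    exact le_antisymm ((norm_le_iff_valued v x y).2 h.le) ((norm_le_iff_valued v y x).2 h.ge)

theorem norm_lt_iff_valued (x y : v.adicCompletion K) : ‖x‖ < ‖y‖ ↔ Valued.v x < Valued.v y := by
  rw [← not_le, ← not_le, norm_le_iff_valued]

/-- Discreteness. -/
theorem sq_le_pow_succ_of_sq_le_pow {p : ℕ} (hp : Odd p) {π : v.adicCompletion K}
    (hπ : Valued.v π = WithZero.exp (-1 : ℤ)) (x : v.adicCompletion K)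
    (h : ‖x‖ ^ 2 ≤ ‖π‖ ^ p) : ‖x‖ ^ 2 ≤ ‖π‖ ^ (p + 1) := by
  rw [← norm_pow, ← norm_pow, norm_le_iff_valued, map_pow, map_pow, hπ] at h ⊢
  rcases eq_or_ne x 0 with rfl | hx
  · simp
  · have hvx : Valued.v x ≠ 0 := (Valuation.ne_zero_iff _).2 hx
    obtain ⟨k, hk⟩ : ∃ k : ℤ, Valued.v x = WithZero.exp k :=
      ⟨WithZero.log (Valued.v x), (WithZero.exp_log hvx).symm⟩
    rw [hk, ← WithZero.exp_nsmul, ← WithZero.exp_nsmul, WithZero.exp_le_exp] at h ⊢
    obtain ⟨m, rfl⟩ := hp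
    simp only [nsmul_eq_mul] at h ⊢
    push_cast at h ⊢
    omega

end

end Pool.Agent.MP009fd8J
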