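import Pool.Agent.Lib.MP_009fd8_agJ.Def
import Pool.Agent.Lib.MP_009fd8_agJ.NormTools

/-!
The places above `p`, general condition: traces.
-/

set_option autoImplicit false

namespace Pool.Agent.MP009fd8J

open Finset

/-- A product of `1 + a i` up to second order. -/
theorem norm_prod_one_add_sub_sum {F : Type*} [NormedField F] [IsUltrametricDist F] {ι : Type*}
    (s : Finset ι) (a : ι → F) {r : ℝ} (hr0 : 0 ≤ r) (hr : r ≤ 1) (h : ∀ i ∈ s, ‖a i‖ ≤ r) :
    ‖∏ i ∈ s, (1 + a i) - 1 - ∑ i ∈ s, a i‖ ≤ r ^ 2 := by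
  classical
  induction s using Finset.induction_on with
  | empty => simpa using sq_nonneg r
  | insert i s his ih =>
    have hs : ∀ j ∈ s, ‖a j‖ ≤ r := fun j hj => h j (mem_insert_of_mem hj)
    have h1 := ih hs
    have h2 := h i (mem_insert_self i s)
    have h3 := norm_prod_one_add_sub_one s a hr0 hr hs
    rw [prod_insert his, sum_insert his]
    have e : (1 + a i) * ∏ j ∈ s, (1 + a j) - 1 - (a i + ∑ j ∈ s, a j) =
        (∏ j ∈ s, (1 + a j) - 1 - ∑ j ∈ s, a j) + a i * (∏ j ∈ s, (1 + a j) - 1) := by ring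
    rw [e]
    refine (IsUltrametricDist.norm_add_le_max _ _).trans (max_le h1 ?_)
    rw [norm_mul, sq]
    exact mul_le_mul h2 h3 (norm_nonneg _) hr0

section tools

variable {k L : Type*} [NontriviallyNormedField k] [IsUltrametricDist k] [CompleteSpace k]
  [CharZero k] [Field L] [Algebra k L] [FiniteDimensional k L]

/-- `N (1 + z) = 1 + Tr z` up to `‖z‖ ^ 2`. -/
theorem norm_algebra_norm_one_add_sub_trace (z : L) (hz : spectralNorm k L z ≤ 1) :
    ‖Algebra.norm k (1 + z) - 1 - Algebra.trace k L z‖ ≤ spectralNorm k L z ^ 2 := by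
  let i1 : NormedField (AlgebraicClosure k) := spectralNorm.normedField k (AlgebraicClosure k)
  let i2 : NormedAlgebra k (AlgebraicClosure k) := spectralNorm.normedAlgebra k _
  have i3 : IsUltrametricDist (AlgebraicClosure k) :=
    IsUltrametricDist.isUltrametricDist_of_isNonarchimedean_norm isNonarchimedean_spectralNorm
  have h1 := Algebra.norm_eq_prod_embeddings k (AlgebraicClosure k) (1 + z)
  have h1' := trace_eq_sum_embeddings (K := k) (L := L) (AlgebraicClosure k) (x := z)
  have h2 : ‖algebraMap k (AlgebraicClosure k)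
      (Algebra.norm k (1 + z) - 1 - Algebra.trace k L z)‖ =
      ‖Algebra.norm k (1 + z) - 1 - Algebra.trace k L z‖ := norm_algebraMap' _ _
  rw [← h2, map_sub, map_sub, h1, h1', map_one]
  have h3 : ∀ σ : L →ₐ[k] AlgebraicClosure k, σ (1 + z) = 1 + σ z := fun σ => by
    rw [map_add, map_one]
  rw [Finset.prod_congr rfl fun σ _ => h3 σ]
  refine norm_prod_one_add_sub_sum _ _ (spectralNorm_nonneg z) hz fun σ _ => ?_
  exact (spectralNorm_algHom σ z).le

/-- If `V ^ 2` is close to a non-square unit `D` of `k`, then the trace of `V` is small. -/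
theorem norm_trace_lt_one (V : L) (D : k) (hD1 : ‖D‖ ≤ 1) (hD : ∀ t : k, ¬ ‖t ^ 2 - D‖ < 1)
    (hV : spectralNorm k L (V ^ 2 - algebraMap k L D) < 1) : ‖Algebra.trace k L V‖ < 1 := by
  classical
  let i1 : NormedField (AlgebraicClosure k) := spectralNorm.normedField k (AlgebraicClosure k)
  let i2 : NormedAlgebra k (AlgebraicClosure k) := spectralNorm.normedAlgebra k _
  have i3 : IsUltrametricDist (AlgebraicClosure k) :=
    IsUltrametricDist.isUltrametricDist_of_isNonarchimedean_norm isNonarchimedean_spectralNorm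
  obtain ⟨δ, hδ⟩ := IsAlgClosed.exists_pow_nat_eq (algebraMap k (AlgebraicClosure k) D)
    (n := 2) two_pos
  have hDn : ‖algebraMap k (AlgebraicClosure k) D‖ = ‖D‖ := norm_algebraMap' _ _
  have hδ1 : ‖δ‖ ≤ 1 := by
    have h1 : ‖δ‖ ^ 2 ≤ 1 := by
      rw [← norm_pow, hδ, hDn]
      exact hD1
    exact (sq_le_one_iff₀ (norm_nonneg _)).1 h1
  have hσ : ∀ σ : L →ₐ[k] AlgebraicClosure k, ∃ j : ℤ, ‖σ V - j * δ‖ < 1 := by
    intro σ
    have h1 : ‖(σ V - δ) * (σ V + δ)‖ < 1 := by
      have e : (σ V - δ) * (σ V + δ) = σ (V ^ 2 - algebraMap k L D) := by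
        rw [map_sub, map_pow, AlgHom.commutes, ← hδ]
        ring
      rw [e]
      exact (spectralNorm_algHom σ _).trans_lt hV
    by_cases h2 : ‖σ V - δ‖ < 1
    · exact ⟨1, by simpa using h2⟩
    · refine ⟨-1, ?_⟩
      push Not at h2
      have h3 : ‖σ V + δ‖ < 1 := by
        by_contra h4
        push Not at h4
        rw [norm_mul] at h1
        have h5 : (1 : ℝ) * 1 ≤ ‖σ V - δ‖ * ‖σ V + δ‖ :=
          mul_le_mul h2 h4 zero_le_one (norm_nonneg _)
        linarith
      simpa using h3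
  choose j hj using hσ
  set M : ℤ := ∑ σ : L →ₐ[k] AlgebraicClosure k, j σ with hM
  have htr := trace_eq_sum_embeddings (K := k) (L := L) (AlgebraicClosure k) (x := V)
  set T : k := Algebra.trace k L V with hT
  have hTM : ‖algebraMap k (AlgebraicClosure k) T - M * δ‖ < 1 := by
    rw [htr, hM, Int.cast_sum, sum_mul, ← sum_sub_distrib]
    rcases (univ : Finset (L →ₐ[k] AlgebraicClosure k)).eq_empty_or_nonempty with h0 | h0
    · rw [h0]
      simp
    · obtain ⟨σ, _, h4⟩ := IsUltrametricDist.exists_norm_finsetSum_le_of_nonempty h0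
        (fun σ => σ V - j σ * δ)
      exact h4.trans_lt (hj σ)
  have hTn : ‖algebraMap k (AlgebraicClosure k) T‖ = ‖T‖ := norm_algebraMap' _ _
  by_contra hT1
  push Not at hT1
  have hM1 : ‖(M : k)‖ ≤ 1 := IsUltrametricDist.norm_intCast_le_one k M
  have hMn : ‖(M : AlgebraicClosure k)‖ = ‖(M : k)‖ := by
    have : algebraMap k (AlgebraicClosure k) (M : k) = (M : AlgebraicClosure k) := map_intCast _ _
    rw [← this]
    exact norm_algebraMap' _ _
  have hMδ : 1 ≤ ‖(M : AlgebraicClosure k) * δ‖ := by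
    by_contra h6
    push Not at h6
    have e : algebraMap k (AlgebraicClosure k) T =
        (algebraMap k (AlgebraicClosure k) T - M * δ) + M * δ := by ring
    have h7 : ‖algebraMap k (AlgebraicClosure k) T‖ < 1 := by
      rw [e]
      exact (IsUltrametricDist.norm_add_le_max _ _).trans_lt (max_lt hTM h6)
    rw [hTn] at h7
    linarith
  have hMδ1 : ‖(M : AlgebraicClosure k) * δ‖ ≤ 1 := by
    rw [norm_mul, hMn]
    calc ‖(M : k)‖ * ‖δ‖ ≤ 1 * 1 := mul_le_mul hM1 hδ1 (norm_nonneg _) zero_le_one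
      _ = 1 := one_mul 1
  have hM1' : ‖(M : k)‖ = 1 := by
    apply le_antisymm hM1
    rw [norm_mul, hMn] at hMδ
    calc (1 : ℝ) ≤ ‖(M : k)‖ * ‖δ‖ := hMδ
      _ ≤ ‖(M : k)‖ * 1 := mul_le_mul_of_nonneg_left hδ1 (norm_nonneg _)
      _ = ‖(M : k)‖ := mul_one _
  have hM0 : (M : k) ≠ 0 := by
    rw [← norm_pos_iff, hM1']
    exact one_pos
  apply hD (T / M)
  have e1 : (T / M) ^ 2 - D = (T ^ 2 - M ^ 2 * D) / M ^ 2 := by
    field_simp
  have e2 : algebraMap k (AlgebraicClosure k) (T ^ 2 - M ^ 2 * D) =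
      (algebraMap k (AlgebraicClosure k) T - M * δ) *
        (algebraMap k (AlgebraicClosure k) T + M * δ) := by
    rw [map_sub, map_mul, map_pow, map_pow, map_intCast, ← hδ]
    ring
  have h8 : ‖T ^ 2 - M ^ 2 * D‖ < 1 := by
    have h9 : ‖algebraMap k (AlgebraicClosure k) (T ^ 2 - M ^ 2 * D)‖ = ‖T ^ 2 - M ^ 2 * D‖ :=
      norm_algebraMap' _ _
    rw [← h9, e2, norm_mul]
    have h10 : ‖algebraMap k (AlgebraicClosure k) T + M * δ‖ ≤ 1 := by
      have e3 : algebraMap k (AlgebraicClosure k) T + M * δ =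
        (algebraMap k (AlgebraicClosure k) T - M * δ) + (M * δ + M * δ) := by ring
      rw [e3]
      refine (IsUltrametricDist.norm_add_le_max _ _).trans (max_le hTM.le ?_)
      exact (IsUltrametricDist.norm_add_le_max _ _).trans (max_le hMδ1 hMδ1)
    calc ‖algebraMap k (AlgebraicClosure k) T - M * δ‖ *
          ‖algebraMap k (AlgebraicClosure k) T + M * δ‖
        ≤ ‖algebraMap k (AlgebraicClosure k) T - M * δ‖ * 1 :=
          mul_le_mul_of_nonneg_left h10 (norm_nonneg _)
      _ = ‖algebraMap k (AlgebraicClosure k) T - M * δ‖ := mul_one _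
      _ < 1 := hTM
  rw [e1, norm_div, norm_pow, hM1', one_pow, div_one]
  exact h8

end tools

end Pool.Agent.MP009fd8J
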