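import Pool.Agent.Lib.MP_009fd8_agJ.PGenA
import Pool.Agent.Lib.MP_009fd8_agJ.PGenT

/-!
The places above `p`, general condition: `n = 2 c ^ p + p m`.
-/

set_option autoImplicit false

namespace Pool.Agent.MP009fd8J

open Finset

universe u

section pgood

variable {k : Type*} [NormedField k] [IsUltrametricDist k] {p : ℕ} {θ : ℝ}

omit [IsUltrametricDist k] in
theorem pgood_pow (hθ : 0 ≤ θ) {c : k} (hc : c ≠ 0) :
    ∃ b z : k, b ≠ 0 ∧ ‖z‖ ^ 2 ≤ θ ∧ c ^ p = b ^ p * (1 + z) :=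
  ⟨c, 0, hc, by simpa using hθ, by simp⟩

theorem pgood_mul {a a' : k} (hθ : θ < 1)
    (h : ∃ b z : k, b ≠ 0 ∧ ‖z‖ ^ 2 ≤ θ ∧ a = b ^ p * (1 + z))
    (h' : ∃ b z : k, b ≠ 0 ∧ ‖z‖ ^ 2 ≤ θ ∧ a' = b ^ p * (1 + z)) :
    ∃ b z : k, b ≠ 0 ∧ ‖z‖ ^ 2 ≤ θ ∧ a * a' = b ^ p * (1 + z) := by
  obtain ⟨b, z, hb, hz, rfl⟩ := h
  obtain ⟨b', z', hb', hz', rfl⟩ := h'
  refine ⟨b * b', z + (z' + z * z'), mul_ne_zero hb hb', ?_, by ring⟩
  have hz1 : ‖z‖ ≤ 1 := ((sq_lt_one_iff₀ (norm_nonneg _)).1 (hz.trans_lt hθ)).le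
  have h1 : ‖z + (z' + z * z')‖ ≤ max ‖z‖ ‖z'‖ := by
    refine (IsUltrametricDist.norm_add_le_max _ _).trans (max_le (le_max_left _ _) ?_)
    refine (IsUltrametricDist.norm_add_le_max _ _).trans (max_le (le_max_right _ _) ?_)
    rw [norm_mul]
    exact (mul_le_of_le_one_left (norm_nonneg _) hz1).trans (le_max_right _ _)
  rcases le_total ‖z‖ ‖z'‖ with h2 | h2
  · rw [max_eq_right h2] at h1
    exact (pow_le_pow_left₀ (norm_nonneg _) h1 2).trans hz'
  · rw [max_eq_left h2] at h1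
    exact (pow_le_pow_left₀ (norm_nonneg _) h1 2).trans hz

/-- Inverses of elements close to `1`. -/
theorem exists_inv_one_add {z : k} (hz : ‖z‖ < 1) : ∃ z' : k, ‖z'‖ = ‖z‖ ∧ (1 + z)⁻¹ = 1 + z' := by
  have h1 : ‖1 + z‖ = 1 := nrm_one_add hz
  have h0 : 1 + z ≠ 0 := by
    rw [← norm_pos_iff, h1]
    exact one_pos
  refine ⟨-(z / (1 + z)), ?_, ?_⟩
  · rw [norm_neg, norm_div, h1, div_one]
  · field_simp
    ring

theorem pgood_inv {a : k} (hθ : θ < 1)
    (h : ∃ b z : k, b ≠ 0 ∧ ‖z‖ ^ 2 ≤ θ ∧ a = b ^ p * (1 + z)) :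
    ∃ b z : k, b ≠ 0 ∧ ‖z‖ ^ 2 ≤ θ ∧ a⁻¹ = b ^ p * (1 + z) := by
  obtain ⟨b, z, hb, hz, rfl⟩ := h
  have hz1 : ‖z‖ < 1 := (sq_lt_one_iff₀ (norm_nonneg _)).1 (hz.trans_lt hθ)
  obtain ⟨z', hz', e⟩ := exists_inv_one_add hz1
  refine ⟨b⁻¹, z', inv_ne_zero hb, by rw [hz']; exact hz, ?_⟩
  rw [mul_inv, e, inv_pow]

theorem pgood_npow {a : k} (hθ0 : 0 ≤ θ) (hθ : θ < 1)
    (h : ∃ b z : k, b ≠ 0 ∧ ‖z‖ ^ 2 ≤ θ ∧ a = b ^ p * (1 + z)) (d : ℕ) :
    ∃ b z : k, b ≠ 0 ∧ ‖z‖ ^ 2 ≤ θ ∧ a ^ d = b ^ p * (1 + z) := by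
  induction d with
  | zero => exact ⟨1, 0, one_ne_zero, by simpa using hθ0, by simp⟩
  | succ d ih =>
    rw [pow_succ]
    exact pgood_mul hθ ih h

end pgood

section norms

variable {k L : Type*} [NontriviallyNormedField k] [IsUltrametricDist k] [CompleteSpace k]
  [CharZero k] [Field L] [Algebra k L] [FiniteDimensional k L]

/-- The norm of an element close to a `p`-th power. -/
theorem norm_form (p : ℕ) (x w e : L) (hw : w ≠ 0) (he : spectralNorm k L e < 1)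
    (hx : x = w ^ p * (1 + e) ∨ x * (1 + e) = w ^ p) :
    ∃ b z : k, b ≠ 0 ∧ ‖z‖ ≤ spectralNorm k L e ∧ Algebra.norm k x = b ^ p * (1 + z) := by
  have hNw : Algebra.norm k w ≠ 0 := Algebra.norm_ne_zero_iff.2 hw
  have h1 := norm_algebra_norm_one_add_sub_one e he.le
  obtain ⟨z, hz⟩ : ∃ z : k, Algebra.norm k (1 + e) = 1 + z := ⟨Algebra.norm k (1 + e) - 1, by ring⟩
  rw [hz, add_sub_cancel_left] at h1
  rcases hx with hx | hx
  · refine ⟨Algebra.norm k w, z, hNw, h1, ?_⟩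
    rw [hx, map_mul, map_pow, hz]
  · obtain ⟨z', hz', e1⟩ := exists_inv_one_add (h1.trans_lt he)
    refine ⟨Algebra.norm k w, z', hNw, by rw [hz']; exact h1, ?_⟩
    have h2 : Algebra.norm k x * (1 + z) = Algebra.norm k w ^ p := by
      rw [← hz, ← map_mul, hx, map_pow]
    have h3 : 1 + z ≠ 0 := by
      rw [← norm_pos_iff, nrm_one_add (h1.trans_lt he)]
      exact one_pos
    rw [← e1, ← h2]
    field_simp

/-- Points with second coefficient divisible by `π`. -/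
theorem pgood_one (p : ℕ) (hp : p.Prime) (hodd : Odd p) (α : ℝ) (hα0 : 0 < α) (hα1 : α < 1)
    (hA : ‖(p : k)‖ = α ^ (p - 1)) (x y : L) (h : k) (hx : x ≠ 0)
    (hxh : x + 2 * algebraMap k L h ≠ 0) (hxy : x * (x + 2 * algebraMap k L h) = y ^ p)
    (hh : ‖h - 1‖ ≤ ‖(p : k)‖) (hh2 : ‖h ^ 2 - 1‖ ≤ α ^ p) :
    ∃ b z : k, b ≠ 0 ∧ ‖z‖ ^ 2 ≤ α ^ p ∧ Algebra.norm k x = b ^ p * (1 + z) := by
  let i1 : NormedField L := spectralNorm.normedField k L
  let i2 : NormedAlgebra k L := spectralNorm.normedAlgebra k L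
  have i3 : IsUltrametricDist L :=
    IsUltrametricDist.isUltrametricDist_of_isNonarchimedean_norm isNonarchimedean_spectralNorm
  have hmap : ∀ a : k, ‖algebraMap k L a‖ = ‖a‖ := fun a => norm_algebraMap' _ _
  have hpn : ‖(p : L)‖ = ‖(p : k)‖ := by
    rw [← hmap, map_natCast]
  have e1 : ‖algebraMap k L h - 1‖ = ‖h - 1‖ := by
    rw [← hmap, map_sub, map_one]
  have e2 : ‖algebraMap k L h ^ 2 - 1‖ = ‖h ^ 2 - 1‖ := by
    rw [← hmap, map_sub, map_one, map_pow]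
  have hαp : α ^ p < 1 := pow_lt_one₀ hα0.le hα1 hp.ne_zero
  have hαp0 : 0 ≤ α ^ p := (pow_pos hα0 _).le
  have hsq : ∀ r : ℝ, 0 ≤ r → r ^ 2 ≤ α ^ p → r < 1 := fun r hr h =>
    (sq_lt_one_iff₀ hr).1 (h.trans_lt hαp)
  have h3p : 3 ≤ p := by
    have h2 := hp.two_le
    obtain ⟨q, hq⟩ := hodd
    omega
  rcases local_form_one hp hodd α hα0 hα1 (hpn.trans hA) x y (algebraMap k L h) hx hxh hxy
    (by rw [e1, hpn]; exact hh) (by rw [e2]; exact hh2) with ⟨w, e, hw, hxe, he⟩ | ⟨e, hxe, he⟩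
  · obtain ⟨b, z, hb, hz, hN⟩ :=
      norm_form (k := k) p x w e hw (hsq _ (spectralNorm_nonneg e) he) hxe
    exact ⟨b, z, hb, (pow_le_pow_left₀ (norm_nonneg _) hz 2).trans he, hN⟩
  · have he1 : spectralNorm k L e ≤ 1 := (hsq _ (norm_nonneg _) he).le
    have h1 := norm_algebra_norm_one_add_sub_one e he1
    have e3 : Algebra.norm k x = (-h) ^ Module.finrank k L * Algebra.norm k (1 + e) := by
      rw [hxe, map_mul, ← map_neg (algebraMap k L) h, Algebra.norm_algebraMap]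
    rw [e3]
    refine pgood_mul hαp (pgood_npow hαp0 hαp ?_ _) ?_
    · refine ⟨-1, h - 1, by simp, ?_, ?_⟩
      · calc ‖h - 1‖ ^ 2 ≤ (α ^ (p - 1)) ^ 2 := pow_le_pow_left₀ (norm_nonneg _) (hh.trans hA.le) 2
          _ ≤ α ^ p := by
            rw [← pow_mul]
            exact pow_le_pow_of_le_one hα0.le hα1.le (by omega)
      · rw [hodd.neg_one_pow]
        ring
    · refine ⟨1, Algebra.norm k (1 + e) - 1, one_ne_zero, ?_, by ring⟩
      exact (pow_le_pow_left₀ (norm_nonneg _) h1 2).trans he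

/-- Points with a second coefficient that is not a square. -/
theorem pgood_two (p : ℕ) (hp : p.Prime) (hodd : Odd p) (π : k) (hπ0 : 0 < ‖π‖) (hπ1 : ‖π‖ < 1)
    (hA : ‖(p : k)‖ = ‖π‖ ^ (p - 1)) (hval : ∀ a : k, a ≠ 0 → ∃ j : ℤ, ‖a‖ = ‖π‖ ^ j)
    (D : k) (hD1 : ‖D‖ ≤ 1) (hD : ∀ t : k, ¬ ‖t ^ 2 - D‖ < 1) (hL : Module.finrank k L < p)
    (x y : L) (h : k) (hx : x ≠ 0)
    (hxh : x + 2 * algebraMap k L h ≠ 0) (hxy : x * (x + 2 * algebraMap k L h) = y ^ p)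
    (hh : ‖h - 1‖ ≤ ‖(p : k)‖) (hh2 : ‖h ^ 2 - 1‖ ≤ ‖(p : k)‖)
    (hh3 : ‖h ^ 2 - 1 - D * π ^ (p - 1)‖ < ‖(p : k)‖) :
    ∃ b z : k, b ≠ 0 ∧ ‖z‖ ^ 2 ≤ ‖π‖ ^ (p + 1) ∧ Algebra.norm k x = b ^ p * (1 + z) := by
  let i1 : NormedField L := spectralNorm.normedField k L
  let i2 : NormedAlgebra k L := spectralNorm.normedAlgebra k L
  have i3 : IsUltrametricDist L :=
    IsUltrametricDist.isUltrametricDist_of_isNonarchimedean_norm isNonarchimedean_spectralNorm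
  have hmap : ∀ a : k, ‖algebraMap k L a‖ = ‖a‖ := fun a => norm_algebraMap' _ _
  have hpn : ‖(p : L)‖ = ‖(p : k)‖ := by
    rw [← hmap, map_natCast]
  obtain ⟨q, hq⟩ := id hodd
  have h3p : 3 ≤ p := by
    have h2 := hp.two_le
    omega
  set α : ℝ := ‖π‖ with hα
  have hπne : π ≠ 0 := norm_pos_iff.1 hπ0
  have hA1 : ‖(p : k)‖ < 1 := by
    rw [hA]
    exact pow_lt_one₀ hπ0.le hπ1 (by omega)
  have hA0 : 0 < ‖(p : k)‖ := by
    rw [hA]
    exact pow_pos hπ0 _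
  set H : L := algebraMap k L h with hH
  have e1 : ‖H - 1‖ = ‖h - 1‖ := by
    rw [← hmap, map_sub, map_one]
  have e2 : ‖H ^ 2 - 1‖ = ‖h ^ 2 - 1‖ := by
    rw [← hmap, map_sub, map_one, map_pow]
  have hθ : α ^ (p + 1) < 1 := pow_lt_one₀ hπ0.le hπ1 (by omega)
  have hθ0 : 0 ≤ α ^ (p + 1) := (pow_pos hπ0 _).le
  -- discreteness
  have hdisc : ∀ z : k, ‖z‖ ^ 2 < ‖(p : k)‖ → ‖z‖ ^ 2 ≤ α ^ (p + 1) := by
    intro z hz
    rcases eq_or_ne z 0 with rfl | hz0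
    · simpa using hθ0
    · obtain ⟨j, hj⟩ := hval z hz0
      rw [hj, ← zpow_natCast, ← zpow_mul, ← zpow_natCast α (p + 1)]
      rw [hj, hA, ← zpow_natCast, ← zpow_mul, ← zpow_natCast α (p - 1)] at hz
      have h1 : ((p - 1 : ℕ) : ℤ) < j * ((2 : ℕ) : ℤ) :=
        (zpow_lt_zpow_iff_right_of_lt_one₀ hπ0 hπ1).1 hz
      apply (zpow_le_zpow_iff_right_of_lt_one₀ hπ0 hπ1).2
      push_cast at h1 ⊢
      omega
  have hAθ : ‖(p : k)‖ ^ 2 ≤ α ^ (p + 1) := by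
    rw [hA, ← pow_mul]
    exact pow_le_pow_of_le_one hπ0.le hπ1.le (by omega)
  rcases local_form_two hp hodd (by rw [hpn]; exact hA0) (by rw [hpn]; exact hA1) x y H hx hxh hxy
    (by rw [e1, hpn]; exact hh) (by rw [e2, hpn]; exact hh2) with
    ⟨w, e, hw, hxe, he⟩ | ⟨hu, hs1, hsA, hb⟩
  · rw [hpn] at he
    have he1 : ‖e‖ < 1 := (sq_lt_one_iff₀ (norm_nonneg _)).1 (he.trans hA1)
    obtain ⟨b, z, hb, hz, hN⟩ := norm_form (k := k) p x w e hw he1 hxe
    exact ⟨b, z, hb, hdisc z ((pow_le_pow_left₀ (norm_nonneg _) hz 2).trans_lt he), hN⟩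
  · rw [hpn] at hu hsA hb
    have hhn : ‖h‖ = 1 := by
      have e : h = 1 + (h - 1) := by ring
      rw [e]
      exact nrm_one_add (hh.trans_lt hA1)
    have hHn : ‖H‖ = 1 := by rw [hmap, hhn]
    have hH0 : H ≠ 0 := by
      rw [← norm_pos_iff, hHn]
      exact one_pos
    set e : L := -((x + H) / H) with he
    have hen : ‖e‖ = ‖x + H‖ := by rw [he, norm_neg, norm_div, hHn, div_one]
    have hxe : x = -H * (1 + e) := by
      rw [he]
      field_simp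
      ring
    have he1 : ‖e‖ < 1 := by
      rw [hen]
      exact (sq_lt_one_iff₀ (norm_nonneg _)).1 (hu.trans_lt hA1)
    have e3 : Algebra.norm k x = (-h) ^ Module.finrank k L * Algebra.norm k (1 + e) := by
      rw [hxe, map_mul, ← map_neg (algebraMap k L) h, Algebra.norm_algebraMap]
    rw [e3]
    refine pgood_mul hθ (pgood_npow hθ0 hθ ?_ _) ?_
    · refine ⟨-1, h - 1, by simp, ?_, ?_⟩
      · exact (pow_le_pow_left₀ (norm_nonneg _) hh 2).trans hAθ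
      · rw [hodd.neg_one_pow]
        ring
    refine ⟨1, Algebra.norm k (1 + e) - 1, one_ne_zero, ?_, by ring⟩
    rcases hu.lt_or_eq with hlt | heq
    · apply hdisc
      have h1 := norm_algebra_norm_one_add_sub_one (k := k) e he1.le
      refine (pow_le_pow_left₀ (norm_nonneg _) h1 2).trans_lt ?_
      change ‖e‖ ^ 2 < ‖(p : k)‖
      rw [hen]
      exact hlt
    · -- the critical case
      have hsne : ‖1 + y‖ ^ p ≠ ‖(p : k)‖ := by
        intro hcon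
        have hs0 : 1 + y ≠ 0 := by
          intro h0
          rw [h0, norm_zero, zero_pow hp.ne_zero] at hcon
          exact absurd hcon hA0.ne
        have hN0 : Algebra.norm k (1 + y) ≠ 0 := Algebra.norm_ne_zero_iff.2 hs0
        obtain ⟨j, hj⟩ := hval _ hN0
        have h1 : ‖Algebra.norm k (1 + y)‖ = ‖1 + y‖ ^ Module.finrank k L :=
          norm_algebra_norm (1 + y)
        have h2 : α ^ (j * p) = α ^ (((p - 1 : ℕ) : ℤ) * (Module.finrank k L : ℤ)) := by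
          rw [zpow_mul, ← hj, h1, zpow_mul, zpow_natCast, zpow_natCast, zpow_natCast, ← hA, ← hcon]
          ring
        have h3 : j * p = ((p - 1 : ℕ) : ℤ) * (Module.finrank k L : ℤ) :=
          zpow_right_injective₀ hπ0 hπ1.ne h2
        have h4 : (p : ℤ) ∣ ((p - 1 : ℕ) : ℤ) * (Module.finrank k L : ℤ) := ⟨j, by rw [← h3]; ring⟩
        have h5 : p ∣ (p - 1) * Module.finrank k L := by exact_mod_cast h4
        have h6 : 0 < Module.finrank k L := Module.finrank_pos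
        rcases hp.dvd_mul.1 h5 with h7 | h7
        · exact absurd (Nat.le_of_dvd (by omega) h7) (by omega)
        · exact absurd (Nat.le_of_dvd h6 h7) (by omega)
      have hslt : ‖1 + y‖ ^ p < ‖(p : k)‖ := lt_of_le_of_ne hsA hsne
      set P : L := algebraMap k L (π ^ q) with hP
      have hPn : ‖P‖ ^ 2 = ‖(p : k)‖ := by
        rw [hmap, norm_pow, hA, hq, ← pow_mul]
        congr 1
        omega
      have hP0 : P ≠ 0 := by
        rw [← norm_pos_iff]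
        by_contra h0
        push Not at h0
        have h1 : ‖P‖ = 0 := le_antisymm h0 (norm_nonneg _)
        rw [h1] at hPn
        rw [← hPn] at hA0
        simp at hA0
      set V : L := e / P with hV
      have heV : e = π ^ q • V := by
        rw [Algebra.smul_def, hV, mul_div_cancel₀ _ hP0]
      have hVn : ‖V‖ ^ 2 ≤ 1 := by
        rw [hV, norm_div, div_pow, hPn, hen, heq, div_self hA0.ne']
      have hV2 : ‖V ^ 2 - algebraMap k L D‖ < 1 := by
        have e4 : (V ^ 2 * H ^ 2 - algebraMap k L D) * P ^ 2 =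
            ((x + H) ^ 2 - (1 + y) ^ p - (H ^ 2 - 1)) +
              ((1 + y) ^ p + algebraMap k L (h ^ 2 - 1 - D * π ^ (p - 1))) := by
          have e5 : V ^ 2 * H ^ 2 * P ^ 2 = (x + H) ^ 2 := by
            rw [hV, he]
            field_simp
          have e6 : algebraMap k L (h ^ 2 - 1 - D * π ^ (p - 1)) =
              H ^ 2 - 1 - algebraMap k L D * P ^ 2 := by
            have e7 : p - 1 = q * 2 := by omega
            rw [map_sub, map_sub, map_one, map_mul, map_pow, hP, e7, pow_mul, map_pow]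
          rw [e6, sub_mul, e5]
          ring
        have h1 : ‖(V ^ 2 * H ^ 2 - algebraMap k L D) * P ^ 2‖ < ‖(p : k)‖ := by
          rw [e4]
          refine (IsUltrametricDist.norm_add_le_max _ _).trans_lt (max_lt hb ?_)
          refine (IsUltrametricDist.norm_add_le_max _ _).trans_lt (max_lt ?_ ?_)
          · rw [norm_pow]
            exact hslt
          · rw [hmap]
            exact hh3
        rw [norm_mul, norm_pow, hPn] at h1
        have h2 : ‖V ^ 2 * H ^ 2 - algebraMap k L D‖ < 1 := by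
          by_contra hcon
          push Not at hcon
          exact absurd h1 (not_lt.2 (le_mul_of_one_le_left hA0.le hcon))
        have e8 : V ^ 2 - algebraMap k L D =
            (V ^ 2 * H ^ 2 - algebraMap k L D) + -(V ^ 2 * (H ^ 2 - 1)) := by ring
        rw [e8]
        refine (IsUltrametricDist.norm_add_le_max _ _).trans_lt (max_lt h2 ?_)
        rw [norm_neg, norm_mul, norm_pow, e2]
        calc ‖V‖ ^ 2 * ‖h ^ 2 - 1‖ ≤ 1 * ‖(p : k)‖ :=
              mul_le_mul hVn hh2 (norm_nonneg _) zero_le_one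
          _ = ‖(p : k)‖ := one_mul _
          _ < 1 := hA1
      have hT := norm_trace_lt_one (k := k) V D hD1 hD hV2
      have hT2 : ‖Algebra.trace k L V‖ ≤ α := by
        rcases eq_or_ne (Algebra.trace k L V) 0 with h0 | h0
        · rw [h0, norm_zero]
          exact hπ0.le
        · obtain ⟨j, hj⟩ := hval _ h0
          rw [hj] at hT ⊢
          have h1 : α ^ j < α ^ (0 : ℤ) := by simpa using hT
          have h2 := (zpow_lt_zpow_iff_right_of_lt_one₀ hπ0 hπ1).1 h1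
          have h3 : α ^ j ≤ α ^ (1 : ℤ) :=
            (zpow_le_zpow_iff_right_of_lt_one₀ hπ0 hπ1).2 (by omega)
          simpa using h3
      have hT3 : ‖Algebra.trace k L e‖ ≤ α ^ (q + 1) := by
        rw [heV, map_smul, smul_eq_mul, norm_mul, norm_pow, pow_succ]
        exact mul_le_mul_of_nonneg_left hT2 (pow_pos hπ0 _).le
      have hsec := norm_algebra_norm_one_add_sub_trace (k := k) e he1.le
      have hsec2 : ‖Algebra.norm k (1 + e) - 1 - Algebra.trace k L e‖ ≤ α ^ (q + 1) := by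
        refine hsec.trans ?_
        change ‖e‖ ^ 2 ≤ α ^ (q + 1)
        rw [hen, heq, hA]
        exact pow_le_pow_of_le_one hπ0.le hπ1.le (by omega)
      have hfin : ‖Algebra.norm k (1 + e) - 1‖ ≤ α ^ (q + 1) := by
        have e9 : Algebra.norm k (1 + e) - 1 =
          (Algebra.norm k (1 + e) - 1 - Algebra.trace k L e) + Algebra.trace k L e := by ring
        rw [e9]
        exact (IsUltrametricDist.norm_add_le_max _ _).trans (max_le hsec2 hT3)
      calc ‖Algebra.norm k (1 + e) - 1‖ ^ 2 ≤ (α ^ (q + 1)) ^ 2 :=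
            pow_le_pow_left₀ (norm_nonneg _) hfin 2
        _ = α ^ (p + 1) := by
            rw [← pow_mul, hq]
            congr 1
            omega

end norms

/-- The image of `J_n(k)` at a place above `p`: it consists of elements that are `p`-th powers up
to `‖π‖ ^ (p / 2)`. Here `n = 2 c ^ p + p m` with `c` a unit and either `π` divides `m` or (`π` is a
uniformizer with `π ^ (p - 1) = - p (1 + ...)` and) `- c m` is not a square modulo `π`. -/
theorem image_at_p_gen {k : Type u} [NontriviallyNormedField k] [IsUltrametricDist k]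
    [CompleteSpace k] [CharZero k] (p : ℕ) (hp : p.Prime) (hodd : Odd p) (π : k) (hπ0 : 0 < ‖π‖)
    (hπ1 : ‖π‖ < 1) (hA : ‖(p : k)‖ = ‖π‖ ^ (p - 1)) (n c m : k) (hc : ‖c‖ = 1)
    (hn : n = 2 * c ^ p + p * m)
    (hm : ‖m‖ ≤ ‖π‖ ∨ (‖m‖ ≤ 1 ∧ ‖(p : k) + π ^ (p - 1)‖ < ‖(p : k)‖ ∧
      (∀ a : k, a ≠ 0 → ∃ j : ℤ, ‖a‖ = ‖π‖ ^ j) ∧ ∀ t : k, ¬ ‖t ^ 2 + c * m‖ < 1))
    {a : k} (h : InImage p n a) :
    ∃ b z : k, b ≠ 0 ∧ ‖z‖ ^ 2 ≤ ‖π‖ ^ p ∧ a = b ^ p * (1 + z) := by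
  obtain ⟨q, hq⟩ := id hodd
  have h3p : 3 ≤ p := by
    have h2 := hp.two_le
    omega
  have hA1 : ‖(p : k)‖ < 1 := by
    rw [hA]
    exact pow_lt_one₀ hπ0.le hπ1 (by omega)
  have hA0 : 0 < ‖(p : k)‖ := by
    rw [hA]
    exact pow_pos hπ0 _
  have h2n : ‖(2 : k)‖ = 1 := nrm_two hodd hA1
  have h20 : (2 : k) ≠ 0 := two_ne_zero
  have hθ : ‖π‖ ^ p < 1 := pow_lt_one₀ hπ0.le hπ1 hp.ne_zero
  have hθ0 : 0 ≤ ‖π‖ ^ p := (pow_pos hπ0 _).le
  have hAθ : ‖(p : k)‖ ^ 2 ≤ ‖π‖ ^ p := by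
    rw [hA, ← pow_mul]
    exact pow_le_pow_of_le_one hπ0.le hπ1.le (by omega)
  have hm1 : ‖m‖ ≤ 1 := by
    rcases hm with hm | hm
    · exact hm.trans hπ1.le
    · exact hm.1
  have hc0 : c ≠ 0 := by
    rw [← norm_pos_iff, hc]
    exact one_pos
  have hcp0 : c ^ p ≠ 0 := pow_ne_zero _ hc0
  have hcp1 : ‖c ^ p‖ = 1 := by rw [norm_pow, hc, one_pow]
  set g : k := 1 + p * m / (2 * c ^ p) with hg
  have hgn : n = 2 * g * c ^ p := by
    rw [hn, hg]
    field_simp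
  have hg1 : ‖g - 1‖ = ‖(p : k)‖ * ‖m‖ := by
    rw [hg, add_sub_cancel_left, norm_div, norm_mul, norm_mul, h2n, hcp1, mul_one, div_one]
  have hg1' : ‖g - 1‖ ≤ ‖(p : k)‖ := by
    rw [hg1]
    exact mul_le_of_le_one_right (norm_nonneg _) hm1
  have hgu : ‖g + 1‖ ≤ 1 := by
    have e : g + 1 = (g - 1) + 2 := by ring
    rw [e]
    exact (IsUltrametricDist.norm_add_le_max _ _).trans (max_le (hg1'.trans hA1.le) h2n.le)
  have hg2 : ‖g ^ 2 - 1‖ ≤ ‖(p : k)‖ * ‖m‖ := by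
    have e : g ^ 2 - 1 = (g - 1) * (g + 1) := by ring
    rw [e, norm_mul, hg1]
    exact mul_le_of_le_one_right (mul_nonneg (norm_nonneg _) (norm_nonneg _)) hgu
  have hg2' : ‖g ^ 2 - 1‖ ≤ ‖(p : k)‖ :=
    hg2.trans (mul_le_of_le_one_right (norm_nonneg _) hm1)
  refine InImage.induction
    (fun a => ∃ b z : k, b ≠ 0 ∧ ‖z‖ ^ 2 ≤ ‖π‖ ^ p ∧ a = b ^ p * (1 + z)) ?_ ?_ ?_ ?_ ?_ h
  · intro b hb
    exact pgood_pow hθ0 hb
  · intro _
    have h2c : (2 * c) ^ p ≠ 0 := pow_ne_zero _ (mul_ne_zero h20 hc0)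
    refine ⟨2 * c, (n - (2 * c) ^ p) / (2 * c) ^ p, mul_ne_zero h20 hc0, ?_, ?_⟩
    · rw [norm_div, norm_pow, norm_mul, h2n, hc, one_mul, one_pow, div_one]
      have h3 := norm_add_pow_sub_le hp (1 : k) (1 : k) norm_one
      simp only [norm_one, max_self, one_pow, mul_one, one_add_one_eq_two] at h3
      have e : n - (2 * c) ^ p = -((2 ^ p - 1 - 1) * c ^ p) + p * m := by
        rw [hn, mul_pow]
        ring
      have h4 : ‖n - (2 * c) ^ p‖ ≤ ‖(p : k)‖ := by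
        rw [e]
        refine (IsUltrametricDist.norm_add_le_max _ _).trans (max_le ?_ ?_)
        · rw [norm_neg, norm_mul, hcp1, mul_one]
          exact h3
        · rw [norm_mul]
          exact mul_le_of_le_one_right (norm_nonneg _) hm1
      exact (pow_le_pow_left₀ (norm_nonneg _) h4 2).trans hAθ
    · field_simp
      ring
  · rintro a ha ⟨L, fL, aL, fin, hdeg, x, y, hx, hxn, hxy, rfl⟩
    have hC0 : algebraMap k L (c ^ p) ≠ 0 := (map_ne_zero _).2 hcp0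
    have hC20 : algebraMap k L (c ^ 2) ≠ 0 := (map_ne_zero _).2 (pow_ne_zero _ hc0)
    set X : L := x / algebraMap k L (c ^ p) with hX
    set Y : L := y / algebraMap k L (c ^ 2) with hY
    have hxX : x = algebraMap k L (c ^ p) * X := by
      rw [hX, mul_div_cancel₀ _ hC0]
    have hX0 : X ≠ 0 := div_ne_zero hx hC0
    have hX2 : X + 2 * algebraMap k L g = (x + algebraMap k L n) / algebraMap k L (c ^ p) := by
      rw [eq_div_iff hC0, add_mul, hX, div_mul_cancel₀ _ hC0, hgn, map_mul, map_mul, map_ofNat]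
    have hX20 : X + 2 * algebraMap k L g ≠ 0 := by
      rw [hX2]
      exact div_ne_zero hxn hC0
    have hXY : X * (X + 2 * algebraMap k L g) = Y ^ p := by
      rw [hX2, hX, hY, div_mul_div_comm, hxy, div_pow, ← map_mul, ← map_pow]
      congr 2
      ring
    have key : ∃ b z : k, b ≠ 0 ∧ ‖z‖ ^ 2 ≤ ‖π‖ ^ p ∧ Algebra.norm k X = b ^ p * (1 + z) := by
      rcases hm with hm | ⟨_, hπp, hval, hD⟩
      · refine pgood_one p hp hodd ‖π‖ hπ0 hπ1 hA X Y g hX0 hX20 hXY hg1' (hg2.trans ?_)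
        have e : ‖π‖ ^ p = ‖(p : k)‖ * ‖π‖ := by
          rw [hA, ← pow_succ, Nat.sub_add_cancel hp.one_le]
        rw [e]
        exact mul_le_mul_of_nonneg_left hm (norm_nonneg _)
      · have hD1 : ‖-(m / c ^ p)‖ ≤ 1 := by
          rw [norm_neg, norm_div, hcp1, div_one]
          exact hm1
        have hD2 : ∀ t : k, ¬ ‖t ^ 2 - -(m / c ^ p)‖ < 1 := by
          intro t ht
          apply hD (t * c ^ (q + 1))
          have e : (t * c ^ (q + 1)) ^ 2 + c * m = c ^ (p + 1) * (t ^ 2 - -(m / c ^ p)) := by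
            have e1 : c ^ (p + 1) * (t ^ 2 - -(m / c ^ p)) = c ^ (p + 1) * t ^ 2 + c * m := by
              rw [pow_succ, sub_neg_eq_add, mul_add, mul_assoc (c ^ p) c (m / c ^ p),
                mul_left_comm (c ^ p) c, mul_div_cancel₀ _ hcp0]
            rw [e1, mul_pow, ← pow_mul, hq]
            ring
          rw [e, norm_mul, norm_pow, hc, one_pow, one_mul]
          exact ht
        have hD3 : ‖g ^ 2 - 1 - -(m / c ^ p) * π ^ (p - 1)‖ < ‖(p : k)‖ := by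
          have e : g ^ 2 - 1 - -(m / c ^ p) * π ^ (p - 1) =
              m / c ^ p * (p + π ^ (p - 1)) + (p * m / (2 * c ^ p)) ^ 2 := by
            rw [hg]
            field_simp
            ring
          rw [e]
          refine (IsUltrametricDist.norm_add_le_max _ _).trans_lt (max_lt ?_ ?_)
          · rw [norm_mul, norm_div, hcp1, div_one]
            exact (mul_le_of_le_one_left (norm_nonneg _) hm1).trans_lt hπp
          · rw [norm_pow, norm_div, norm_mul, norm_mul, h2n, hcp1, mul_one, div_one]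
            calc (‖(p : k)‖ * ‖m‖) ^ 2 ≤ ‖(p : k)‖ ^ 2 :=
                  pow_le_pow_left₀ (mul_nonneg (norm_nonneg _) (norm_nonneg _))
                    (mul_le_of_le_one_right (norm_nonneg _) hm1) 2
              _ < ‖(p : k)‖ := by
                rw [sq]
                exact mul_lt_of_lt_one_right hA0 hA1
        obtain ⟨b, z, hb, hz, hN⟩ := pgood_two p hp hodd π hπ0 hπ1 hA hval (-(m / c ^ p)) hD1 hD2
          hdeg X Y g hX0 hX20 hXY hg1' hg2' hD3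
        exact ⟨b, z, hb, hz.trans (pow_le_pow_of_le_one hπ0.le hπ1.le (by omega)), hN⟩
    rw [hxX, map_mul, Algebra.norm_algebraMap]
    exact pgood_mul hθ (pgood_npow hθ0 hθ (pgood_pow hθ0 hc0) _) key
  · intro a b _ _ ha hb
    exact pgood_mul hθ ha hb
  · intro a _ ha
    exact pgood_inv hθ ha

/-- The same if `π` is a uniformizer: `p`-th powers modulo `π ^ ((p + 1) / 2)`. -/
theorem image_at_p_k {k : Type u} [NontriviallyNormedField k] [IsUltrametricDist k]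
    [CompleteSpace k] [CharZero k] (p : ℕ) (hp : p.Prime) (hodd : Odd p) (π : k) (hπ0 : 0 < ‖π‖)
    (hπ1 : ‖π‖ < 1) (hA : ‖(p : k)‖ = ‖π‖ ^ (p - 1))
    (hπp : ‖(p : k) + π ^ (p - 1)‖ < ‖(p : k)‖)
    (hval : ∀ a : k, a ≠ 0 → ∃ j : ℤ, ‖a‖ = ‖π‖ ^ j) (n c m : k) (hc : ‖c‖ = 1)
    (hn : n = 2 * c ^ p + p * m)
    (hm : ‖m‖ < 1 ∨ (‖m‖ ≤ 1 ∧ ∀ t : k, ¬ ‖t ^ 2 + c * m‖ < 1))
    {a : k} (h : InImage p n a) :
    ∃ b z : k, b ≠ 0 ∧ ‖z‖ ^ 2 ≤ ‖π‖ ^ (p + 1) ∧ a = b ^ p * (1 + z) := by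
  have hm' : ‖m‖ ≤ ‖π‖ ∨ (‖m‖ ≤ 1 ∧ ‖(p : k) + π ^ (p - 1)‖ < ‖(p : k)‖ ∧
      (∀ a : k, a ≠ 0 → ∃ j : ℤ, ‖a‖ = ‖π‖ ^ j) ∧ ∀ t : k, ¬ ‖t ^ 2 + c * m‖ < 1) := by
    rcases hm with hm | hm
    · left
      rcases eq_or_ne m 0 with rfl | h0
      · rw [norm_zero]
        exact hπ0.le
      · obtain ⟨j, hj⟩ := hval m h0
        rw [hj] at hm ⊢
        have h1 : ‖π‖ ^ j < ‖π‖ ^ (0 : ℤ) := by simpa using hm
        have h2 := (zpow_lt_zpow_iff_right_of_lt_one₀ hπ0 hπ1).1 h1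
        have h3 : ‖π‖ ^ j ≤ ‖π‖ ^ (1 : ℤ) :=
          (zpow_le_zpow_iff_right_of_lt_one₀ hπ0 hπ1).2 (by omega)
        simpa using h3
    · exact Or.inr ⟨hm.1, hπp, hval, hm.2⟩
  obtain ⟨b, z, hb, hz, ha⟩ := image_at_p_gen p hp hodd π hπ0 hπ1 hA n c m hc hn hm' h
  refine ⟨b, z, hb, ?_, ha⟩
  obtain ⟨q, hq⟩ := hodd
  rcases eq_or_ne z 0 with rfl | hz0
  · rw [norm_zero, zero_pow two_ne_zero]
    exact (pow_pos hπ0 _).le
  · obtain ⟨j, hj⟩ := hval z hz0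
    rw [hj, ← zpow_natCast, ← zpow_mul, ← zpow_natCast ‖π‖ (p + 1)]
    rw [hj, ← zpow_natCast, ← zpow_mul, ← zpow_natCast ‖π‖ p] at hz
    have h1 : ((p : ℕ) : ℤ) ≤ j * ((2 : ℕ) : ℤ) :=
      (zpow_le_zpow_iff_right_of_lt_one₀ hπ0 hπ1).1 hz
    apply (zpow_le_zpow_iff_right_of_lt_one₀ hπ0 hπ1).2
    push_cast at h1 ⊢
    omega

end Pool.Agent.MP009fd8J
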