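import Pool.Agent.Lib.MP_009fd8_agJ.Def
import Pool.Agent.Lib.MP_009fd8_agJ.NormTools

/-!
MP_009fd8_ag, all odd p, leaf file: the places where n is a unit.
-/

namespace Pool.Agent.MP009fd8J

universe u

/-- At a place where `n` is a unit all elements of the image of `J_n(k)` have valuation divisible
by `p`.

Proof. `InImage.induction`. For a norm value `N(x)`, `x (x + n) = y ^ p` in `L`: if `‖x‖ < 1` then
`‖x + n‖ = 1`, `‖x‖ = ‖y‖^p`, `‖N(x)‖ = ‖N(y)‖^p`. If `‖x‖ > 1` then `‖x‖^2 = ‖y‖^p`,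
`‖N(x)‖^2 = ‖N(y)‖^p`, `c = N(y)^((p+1)/2) / N(x)`. If `‖x‖ = 1` then `‖N(x)‖ = 1`. -/
theorem image_away {k : Type u} [NontriviallyNormedField k] [IsUltrametricDist k]
    [CompleteSpace k] [CharZero k] (p : ℕ) (hp : Odd p) (n : k) (hn : ‖n‖ = 1)
    {a : k} (h : InImage p n a) : ∃ c : k, c ≠ 0 ∧ ‖a‖ = ‖c‖ ^ p := by
  refine InImage.induction (P := fun a => ∃ c : k, c ≠ 0 ∧ ‖a‖ = ‖c‖ ^ p)
    (fun c hc => ⟨c, hc, norm_pow _ _⟩) (fun _ => ⟨1, one_ne_zero, by simp [hn]⟩) ?_ ?_ ?_ h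
  · rintro a ha ⟨L, _, _, hfd, -, x, y, hx, hxn, hxy, rfl⟩
    let _i1 : NormedField L := spectralNorm.normedField k L
    let _i2 : NormedAlgebra k L := spectralNorm.normedAlgebra k L
    have _i3 : IsUltrametricDist L :=
      IsUltrametricDist.isUltrametricDist_of_isNonarchimedean_norm isNonarchimedean_spectralNorm
    have hN : ∀ z : L, ‖Algebra.norm k z‖ = ‖z‖ ^ Module.finrank k L := fun z => norm_algebraNorm z
    have hn' : ‖algebraMap k L n‖ = 1 := by rw [norm_algebraMap', hn]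
    have hy : y ≠ 0 := by
      rintro rfl
      rw [zero_pow hp.pos.ne'] at hxy
      rcases mul_eq_zero.1 hxy with h | h
      · exact hx h
      · exact hxn h
    have hNy : Algebra.norm k y ≠ 0 := by
      rw [← norm_ne_zero_iff, hN]
      exact pow_ne_zero _ (norm_ne_zero_iff.2 hy)
    have hxy' : ‖x‖ * ‖x + algebraMap k L n‖ = ‖y‖ ^ p := by
      rw [← norm_mul, hxy, norm_pow]
    rcases lt_trichotomy ‖x‖ 1 with hlt | heq | hgt
    · have h1 : ‖x + algebraMap k L n‖ = 1 := by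
        rw [IsUltrametricDist.norm_add_eq_max_of_norm_ne_norm (by rw [hn']; exact hlt.ne), hn',
          max_eq_right hlt.le]
      refine ⟨Algebra.norm k y, hNy, ?_⟩
      rw [hN, hN, ← pow_mul, mul_comm, pow_mul, ← hxy', h1, mul_one]
    · exact ⟨1, one_ne_zero, by rw [hN, heq]; simp⟩
    · have h1 : ‖x + algebraMap k L n‖ = ‖x‖ := by
        rw [IsUltrametricDist.norm_add_eq_max_of_norm_ne_norm (by rw [hn']; exact hgt.ne'), hn',
          max_eq_left hgt.le]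
      rw [h1] at hxy'
      obtain ⟨m, hm⟩ := hp
      have hxne : ‖Algebra.norm k x‖ ≠ 0 := norm_ne_zero_iff.2 ha
      have h2 : ‖Algebra.norm k y‖ ^ p = ‖Algebra.norm k x‖ ^ 2 := by
        rw [hN, hN, ← pow_mul, mul_comm, pow_mul, ← hxy', mul_pow, ← sq]
      refine ⟨Algebra.norm k y ^ (m + 1) / Algebra.norm k x, div_ne_zero (pow_ne_zero _ hNy) ha, ?_⟩
      rw [norm_div, norm_pow, div_pow, ← pow_mul, mul_comm (m + 1) p, pow_mul, h2, ← pow_mul,
        eq_div_iff (pow_ne_zero _ hxne), ← pow_succ']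
      congr 1
      omega
  · rintro a b _ _ ⟨c, hc, h1⟩ ⟨e, he, h2⟩
    exact ⟨c * e, mul_ne_zero hc he, by rw [norm_mul, norm_mul, h1, h2, mul_pow]⟩
  · rintro a _ ⟨c, hc, h1⟩
    exact ⟨c⁻¹, inv_ne_zero hc, by rw [norm_inv, norm_inv, h1, inv_pow]⟩

end Pool.Agent.MP009fd8J
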