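import Pool.Agent.Lib.MP_009fd8_agJ.Def

/-!
MP_009fd8_ag, all odd p, leaf file: functoriality of the image in the field.
-/

namespace Pool.Agent.MP009fd8J

universe u

namespace BaseChange

open Polynomial

/-- The norm as a product over the roots of the minimal polynomial of the generator. -/
theorem norm_roots {k M Ω : Type*} [Field k] [CharZero k] [Field M] [Algebra k M] [Field Ω]
    [Algebra k Ω] [IsAlgClosed Ω] (pb : PowerBasis k M) (g : k[X]) :
    algebraMap k Ω (Algebra.norm k (aeval pb.gen g)) =
      (((minpoly k pb.gen).aroots Ω).map fun r => aeval r g).prod := by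
  classical
  have : FiniteDimensional k M := pb.finite
  rw [Algebra.norm_eq_prod_embeddings k Ω]
  rw [Fintype.prod_equiv pb.liftEquiv' (fun σ : M →ₐ[k] Ω => σ (aeval pb.gen g))
    (fun x => aeval (x : Ω) g) ?_]
  · rw [Finset.prod_mem_multiset _ _ (fun r => aeval r g) (fun x => rfl),
      Finset.prod_eq_multiset_prod, Multiset.toFinset_val, Multiset.dedup_eq_self.mpr]
    exact nodup_roots (.map (Algebra.IsSeparable.isSeparable k pb.gen))
  · intro σ
    rw [← aeval_algHom_apply, PowerBasis.liftEquiv'_apply_coe]

theorem inImage_of_isNormValue {p : ℕ} {k : Type u} [Field k] {n a : k} (ha : a ≠ 0)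
    (h : IsNormValue p n a) : InImage p n a :=
  ⟨Units.mk0 a ha, rfl, Subgroup.subset_closure (Or.inr (Or.inr h))⟩

/-- The contribution of a divisor of the minimal polynomial. -/
theorem divisor {p : ℕ} {K F L Ω : Type u} [Field K] [Field F] [CharZero F]
    [Algebra K F] [Field L] [Algebra K L] [Field Ω] [Algebra F Ω] [IsAlgClosed Ω]
    (pb : PowerBasis K L) (hd : pb.dim < p) (n : K) (x y : L) (g : K[X])
    (hg : x = aeval pb.gen g) (hx : x ≠ 0) (hxn : x + algebraMap K L n ≠ 0)
    (hxy : x * (x + algebraMap K L n) = y ^ p) (P : F[X]) (hP0 : P ≠ 0)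
    (hP : P ∣ (minpoly K pb.gen).map (algebraMap K F)) :
    ∃ b : F, InImage p (algebraMap K F n) b ∧ algebraMap F Ω b =
      ((P.aroots Ω).map fun r => aeval r (g.map (algebraMap K F))).prod := by
  induction P using WfDvdMonoid.induction_on_irreducible with
  | zero => exact absurd rfl hP0
  | unit u hu =>
    obtain ⟨c, hc, rfl⟩ := isUnit_iff.1 hu
    refine ⟨1, ?_, ?_⟩
    · simpa using InImage.pow (p := p) (n := algebraMap K F n) (one_ne_zero (α := F))
    · rw [aroots_C, Multiset.map_zero, Multiset.prod_zero, map_one]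
  | mul a i ha hi ih =>
    obtain ⟨b, hb, hb'⟩ := ih ha ((dvd_mul_left a i).trans hP)
    have hi0 : i ≠ 0 := hi.ne_zero
    have hiP : i ∣ (minpoly K pb.gen).map (algebraMap K F) := (dvd_mul_right i a).trans hP
    have : Fact (Irreducible i) := ⟨hi⟩
    have hroot : aeval (AdjoinRoot.root i) (minpoly K pb.gen) = 0 := by
      obtain ⟨q, hq⟩ := hiP
      have h1 : aeval (AdjoinRoot.root i) ((minpoly K pb.gen).map (algebraMap K F)) = 0 := by
        rw [hq, map_mul, AdjoinRoot.aeval_eq, AdjoinRoot.mk_self, zero_mul]
      rwa [aeval_map_algebraMap] at h1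
    set φ : L →ₐ[K] AdjoinRoot i := pb.lift (AdjoinRoot.root i) hroot with hφ
    have hφx : φ x = aeval (AdjoinRoot.powerBasis hi0).gen (g.map (algebraMap K F)) := by
      rw [hg, ← aeval_algHom_apply, hφ, PowerBasis.lift_gen, AdjoinRoot.powerBasis_gen,
        aeval_map_algebraMap]
    have hinj : Function.Injective φ := φ.injective
    have hφ0 : φ x ≠ 0 := fun h => hx (hinj (by rw [h, map_zero]))
    have hφn : algebraMap F (AdjoinRoot i) (algebraMap K F n) = φ (algebraMap K L n) := by
      rw [← IsScalarTower.algebraMap_apply, AlgHom.commutes]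
    have hfin : FiniteDimensional F (AdjoinRoot i) := (AdjoinRoot.powerBasis hi0).finite
    have hdeg : Module.finrank F (AdjoinRoot i) < p := by
      rw [(AdjoinRoot.powerBasis hi0).finrank, AdjoinRoot.powerBasis_dim]
      refine lt_of_le_of_lt (natDegree_le_of_dvd hiP ?_) ?_
      · exact map_monic_ne_zero (minpoly.monic pb.isIntegral_gen)
      · rw [natDegree_map, pb.natDegree_minpoly]
        exact hd
    have hnz : Algebra.norm F (φ x) ≠ 0 := Algebra.norm_ne_zero_iff.2 hφ0
    refine ⟨Algebra.norm F (φ x) * b, InImage.mul (inImage_of_isNormValue hnz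
      ⟨AdjoinRoot i, inferInstance, inferInstance, hfin, hdeg, φ x, φ y, hφ0, ?_, ?_, rfl⟩) hb, ?_⟩
    · rw [hφn, ← map_add]
      exact fun h => hxn (hinj (by rw [h, map_zero]))
    · rw [hφn, ← map_add, ← map_mul, hxy, map_pow]
    · rw [map_mul, hb', hφx, norm_roots, AdjoinRoot.minpoly_powerBasis_gen, mul_comm i (C _),
        aroots_C_mul _ (inv_ne_zero (leadingCoeff_ne_zero.2 hi0)),
        aroots_mul (mul_ne_zero hi0 ha), Multiset.map_add, Multiset.prod_add]

end BaseChange

/-- A norm value over `K` is a product of norm values over any extension field `F`.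

Proof. Let `L / K`, `x`, `y` be as in `IsNormValue`, `Ω` an algebraic closure of `F` (a `K`-algebra
through `F`). `Algebra.norm_eq_prod_embeddings K Ω x`: the image of `N_{L/K}(x)` in `Ω` is the
product of `σ x` over the finite set `S` of `K`-embeddings `σ : L →ₐ[K] Ω` (its cardinality is
`[L : K] < p`). The group `G = Ω ≃ₐ[F] Ω` acts on `S` by composition. For `σ ∈ S` let
`M_σ = F(σ(L)) ⊆ Ω` (IntermediateField F Ω, `IntermediateField.adjoin F (Set.range σ)`); it is
finite over `F` of degree = size of the orbit of `σ` (restriction `τ ↦ τ ∘ σ` is a bijection from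
`M_σ →ₐ[F] Ω` to the orbit, because an embedding of `M_σ` over `F` is determined by its
restriction to `σ(L)`, and it extends to `Ω`), so of degree `< p`; and
`N_{M_σ/F}(σ x) = ∏ of τ (σ x)` over the orbit. In `M_σ` we have
`σ x (σ x + n) = (σ y) ^ p`. Take the product over the orbits. -/
theorem InImage.of_isNormValue {p : ℕ} {K F : Type u} [Field K] [CharZero K] [Field F]
    [Algebra K F] {n a : K} (ha : a ≠ 0) (h : IsNormValue p n a) :
    InImage p (algebraMap K F n) (algebraMap K F a) := by
  have : CharZero F := charZero_of_injective_algebraMap (algebraMap K F).injective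
  obtain ⟨L, _, _, hfin, hdeg, x, y, hx, hxn, hxy, rfl⟩ := h
  set pb : PowerBasis K L := Field.powerBasisOfFiniteOfSeparable K L with hpb
  obtain ⟨g, hg⟩ := pb.exists_eq_aeval' x
  obtain ⟨b, hb, hb'⟩ := BaseChange.divisor (Ω := AlgebraicClosure F) pb
    (by rw [← pb.finrank]; exact hdeg) n x y g hg hx hxn hxy
    ((minpoly K pb.gen).map (algebraMap K F))
    (Polynomial.map_monic_ne_zero (minpoly.monic pb.isIntegral_gen)) dvd_rfl
  have h1 : algebraMap F (AlgebraicClosure F) b =
      algebraMap F (AlgebraicClosure F) (algebraMap K F (Algebra.norm K x)) := by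
    rw [hb', ← IsScalarTower.algebraMap_apply, hg, BaseChange.norm_roots, Polynomial.aroots_map]
    simp only [Polynomial.aeval_map_algebraMap]
  rw [← (algebraMap F (AlgebraicClosure F)).injective h1]
  exact hb

/-- The image is functorial in the field. -/
theorem InImage.map {p : ℕ} {K F : Type u} [Field K] [CharZero K] [Field F]
    [Algebra K F] {n a : K} (h : InImage p n a) :
    InImage p (algebraMap K F n) (algebraMap K F a) := by
  refine InImage.induction (P := fun a => InImage p (algebraMap K F n) (algebraMap K F a))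
    ?_ ?_ ?_ ?_ ?_ h
  · intro c hc
    rw [map_pow]
    exact InImage.pow (by rwa [Ne, map_eq_zero])
  · intro hn
    exact InImage.self (by rwa [Ne, map_eq_zero])
  · intro b hb0 hb
    exact InImage.of_isNormValue hb0 hb
  · intro a b _ _ ha hb
    rw [map_mul]
    exact ha.mul hb
  · intro a _ ha
    rw [map_inv₀]
    exact ha.inv

end Pool.Agent.MP009fd8J
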