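import Mathlib

/-!
MP_009fd8_ag, all odd primes `p`: descent by the endomorphism `1 - ζ` of the Jacobian `J_n` of the
curve `C_n : y ^ p = x (x + n)` of genus `(p - 1) / 2`. Definitions.
-/

namespace Pool.Agent.MP009fd8J

open IsDedekindDomain NumberField

universe u

/-- `a` is the norm to `k` of the value of the function `x` at a closed point of degree less than
`p` of the curve `C_n : y ^ p = x (x + n)` over `k` (different from the points with `x = 0`,
`x = - n` and the point at infinity). -/
def IsNormValue (p : ℕ) {k : Type u} [Field k] (n a : k) : Prop :=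
  ∃ (L : Type u) (_ : Field L) (_ : Algebra k L), FiniteDimensional k L ∧ Module.finrank k L < p ∧
    ∃ x y : L, x ≠ 0 ∧ x + algebraMap k L n ≠ 0 ∧ x * (x + algebraMap k L n) = y ^ p ∧
      a = Algebra.norm k x

/-- The image of `J_n(k)` in `kˣ` modulo `p`-th powers under the descent map given by the
function `x`, as a subgroup of `kˣ` containing the `p`-th powers: it is generated by the `p`-th
powers, by `n` (the value of the torsion class `(0, 0) - ∞`, up to inversion) and by the norms
of the values of `x` at closed points. -/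
def image (p : ℕ) {k : Type u} [Field k] (n : k) : Subgroup kˣ :=
  Subgroup.closure {a : kˣ | (∃ c : kˣ, a = c ^ p) ∨ (a : k) = n ∨ IsNormValue p n (a : k)}

/-- The class of `a` lies in the image of `J_n(k)`. -/
def InImage (p : ℕ) {k : Type u} [Field k] (n a : k) : Prop :=
  ∃ x : kˣ, (x : k) = a ∧ x ∈ image p n

/-- The class of `a` lies in the Selmer group of the endomorphism `1 - ζ` of `J_n` over the number
field `K` (which contains `ζ`, a primitive `p`-th root of unity, `p` odd, so that the infinite
places give no condition). -/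
def Selmer (p : ℕ) (K : Type u) [Field K] [NumberField K] (n a : K) : Prop :=
  ∀ v : HeightOneSpectrum (𝓞 K),
    InImage p (algebraMap K (v.adicCompletion K) n) (algebraMap K (v.adicCompletion K) a)

theorem InImage.ne_zero {p : ℕ} {k : Type u} [Field k] {n a : k} (h : InImage p n a) : a ≠ 0 := by
  obtain ⟨x, rfl, _⟩ := h
  exact x.ne_zero

theorem InImage.pow {p : ℕ} {k : Type u} [Field k] {n c : k} (hc : c ≠ 0) :
    InImage p n (c ^ p) :=
  ⟨Units.mk0 c hc ^ p, by simp, Subgroup.subset_closure (Or.inl ⟨_, rfl⟩)⟩

theorem InImage.self {p : ℕ} {k : Type u} [Field k] {n : k} (hn : n ≠ 0) :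
    InImage p n n :=
  ⟨Units.mk0 n hn, by simp, Subgroup.subset_closure (Or.inr (Or.inl (by simp)))⟩

theorem InImage.mul {p : ℕ} {k : Type u} [Field k] {n a b : k} (ha : InImage p n a)
    (hb : InImage p n b) : InImage p n (a * b) := by
  obtain ⟨x, rfl, hx⟩ := ha
  obtain ⟨y, rfl, hy⟩ := hb
  exact ⟨x * y, by simp, mul_mem hx hy⟩

theorem InImage.inv {p : ℕ} {k : Type u} [Field k] {n a : k} (ha : InImage p n a) :
    InImage p n a⁻¹ := by
  obtain ⟨x, rfl, hx⟩ := ha
  exact ⟨x⁻¹, by simp, inv_mem hx⟩

theorem InImage.pow_mul {p : ℕ} {k : Type u} [Field k] {n c : k} (hn : n ≠ 0) (hc : c ≠ 0)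
    (j : ℕ) : InImage p n (n ^ j * c ^ p) := by
  refine InImage.mul ?_ (InImage.pow hc)
  induction j with
  | zero => simpa using InImage.pow (p := p) (n := n) (one_ne_zero (α := k))
  | succ j ih => rw [pow_succ]; exact ih.mul (InImage.self hn)

/-- Induction principle: a property of elements of `k` that holds for `p`-th powers, `n` and norm
values and is stable under products and inverses holds for all elements of the image. -/
theorem InImage.induction {p : ℕ} {k : Type u} [Field k] {n : k} (P : k → Prop)
    (h1 : ∀ c : k, c ≠ 0 → P (c ^ p)) (h2 : n ≠ 0 → P n)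
    (h3 : ∀ a : k, a ≠ 0 → IsNormValue p n a → P a)
    (hmul : ∀ a b : k, a ≠ 0 → b ≠ 0 → P a → P b → P (a * b))
    (hinv : ∀ a : k, a ≠ 0 → P a → P a⁻¹) {a : k} (h : InImage p n a) : P a := by
  obtain ⟨x, rfl, hx⟩ := h
  have key : ∀ y ∈ image p n, P (y : k) := by
    intro y hy
    unfold image at hy
    refine Subgroup.closure_induction (p := fun (z : kˣ) _ => P (z : k)) ?_ ?_ ?_ ?_ hy
    · rintro z (⟨c, rfl⟩ | hz | hz)
      · have := h1 (c : k) c.ne_zero
        simpa using this
      · rw [hz]
        exact h2 (hz ▸ z.ne_zero)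
      · exact h3 _ z.ne_zero hz
    · have := h1 1 one_ne_zero
      simpa using this
    · intro z w _ _ hz hw
      have := hmul z w z.ne_zero w.ne_zero hz hw
      simpa using this
    · intro z _ hz
      have := hinv z z.ne_zero hz
      simpa using this
  exact key x hx

end Pool.Agent.MP009fd8J
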