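import Pool.Agent.Lib.MP_009fd8_agJ.Main

/-!
MP_009fd8_ag, all odd p: the Selmer group when n has one bad place.
-/

namespace Pool.Agent.MP009fd8J

open IsDedekindDomain NumberField

universe u

theorem Selmer.mul {p : ℕ} {K : Type u} [Field K] [NumberField K] {n a b : K}
    (ha : Selmer p K n a) (hb : Selmer p K n b) : Selmer p K n (a * b) := by
  intro v
  rw [map_mul]
  exact (ha v).mul (hb v)

theorem Selmer.inv {p : ℕ} {K : Type u} [Field K] [NumberField K] {n a : K}
    (ha : Selmer p K n a) : Selmer p K n a⁻¹ := by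
  intro v
  rw [map_inv₀]
  exact (ha v).inv

theorem Selmer.pow_mul {p : ℕ} {K : Type u} [Field K] [NumberField K] {n c : K}
    (hn : n ≠ 0) (hc : c ≠ 0) (j : ℕ) : Selmer p K n (n ^ j * c ^ p) := by
  intro v
  rw [map_mul, map_pow, map_pow]
  exact InImage.pow_mul (by rwa [Ne, map_eq_zero]) (by rwa [Ne, map_eq_zero]) j

/-- If `n` has exactly one bad place `v₀`, the class number is prime to `p` and every unit that is
near a `p`-th power at all places above `p` and a `p`-th power at `v₀` is a `p`-th power, then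
the Selmer group is generated by `n`. -/
theorem selmer_iff {p : ℕ} (hp : p.Prime) (hp2 : p ≠ 2) {K : Type u} [Field K] [NumberField K]
    {ζ : K} (hζ : IsPrimitiveRoot ζ p) (n : K) (hn0 : n ≠ 0)
    (hnp : ∀ v : HeightOneSpectrum (𝓞 K), v.valuation K (p : K) < 1 →
      ∃ g : v.adicCompletion K, g ≠ 0 ∧ algebraMap K (v.adicCompletion K) n = 2 * g ^ p)
    (hcl : ¬ p ∣ NumberField.classNumber K)
    (v₀ : HeightOneSpectrum (𝓞 K)) (h0 : ¬ ∃ w, v₀.valuation K n = w ^ p)
    (hoth : ∀ v : HeightOneSpectrum (𝓞 K), v ≠ v₀ → ∃ w, v.valuation K n = w ^ p)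
    (hU : ∀ u : (𝓞 K)ˣ, (∀ v : HeightOneSpectrum (𝓞 K), v.valuation K (p : K) < 1 →
      NearPow p (1 - ζ) v (u : K)) →
      (∃ c : v₀.adicCompletion K, algebraMap K (v₀.adicCompletion K) (u : K) = c ^ p) →
      ∃ η : (𝓞 K)ˣ, u = η ^ p)
    (a : K) : Selmer p K n a ↔ ∃ (j : ℕ) (c : K), c ≠ 0 ∧ a = n ^ j * c ^ p := by
  constructor
  · intro ha
    have hG := selmer_inG hp hp2 hζ n hn0 hnp ha
    obtain ⟨j, c, hc0, hc⟩ := hG.at_n v₀ h0
    have hnj : n ^ j ≠ 0 := pow_ne_zero _ hn0
    have ha0 : a ≠ 0 := by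
      rintro rfl
      exact (ha v₀).ne_zero (map_zero _)
    -- divide by `n ^ j`
    set a' : K := a * (n ^ j)⁻¹ with ha'
    have hSn : Selmer p K n (n ^ j) := by
      have := Selmer.pow_mul (p := p) hn0 (one_ne_zero (α := K)) j
      simpa using this
    have hS' : Selmer p K n a' := ha.mul hSn.inv
    have ha'0 : a' ≠ 0 := mul_ne_zero ha0 (inv_ne_zero hnj)
    have hG' := selmer_inG hp hp2 hζ n hn0 hnp hS'
    have hc' : algebraMap K (v₀.adicCompletion K) a' = c ^ p := by
      rw [ha', map_mul, hc, map_inv₀, map_pow]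
      have h1 : algebraMap K (v₀.adicCompletion K) n ^ j ≠ 0 := by
        rw [← map_pow, Ne, map_eq_zero]; exact hnj
      field_simp
    obtain ⟨u, r, hr0, hur⟩ := exists_unit_mul_pow p hp hcl a' ha'0 (by
      intro v
      by_cases hv : v = v₀
      · subst hv
        have h2 := congrArg Valued.v hc'
        rw [valued_algebraMap, map_pow] at h2
        exact ⟨_, h2⟩
      · exact hG'.away v (hoth v hv))
    have hrp : r ^ p ≠ 0 := pow_ne_zero _ hr0
    have hu : (u : K) = a' * (r ^ p)⁻¹ := by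
      rw [hur]
      field_simp
    have hSr : Selmer p K n (r ^ p) := by
      have := Selmer.pow_mul (p := p) hn0 hr0 0
      simpa using this
    have hSu : Selmer p K n (u : K) := by
      rw [hu]; exact hS'.mul hSr.inv
    have hGu := selmer_inG hp hp2 hζ n hn0 hnp hSu
    obtain ⟨η, hη⟩ := hU u hGu.at_p (by
      refine ⟨c / algebraMap K (v₀.adicCompletion K) r, ?_⟩
      rw [hu, map_mul, hc', map_inv₀, map_pow, div_pow, div_eq_mul_inv])
    refine ⟨j, (η : K) * r, mul_ne_zero (by simp) hr0, ?_⟩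
    have e1 : (u : K) = (η : K) ^ p := by
      rw [hη]; push_cast; rfl
    have e2 : a = n ^ j * a' := by
      rw [ha']; field_simp
    rw [e2, hur, mul_pow]
    congr 1
    rw [← e1]
  · rintro ⟨j, c, hc, rfl⟩
    exact Selmer.pow_mul hn0 hc j

end Pool.Agent.MP009fd8J
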