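import Pool.Agent.Lib.MP_009fd8_agJ.Def

/-!
MP_009fd8_ag, all odd p: the curves C_n and C_(n c^p) are isomorphic.
-/

namespace Pool.Agent.MP009fd8J

universe u

/-- Twisting by a `p`-th power does not change the image. -/
theorem InImage.of_mul_pow {p : ℕ} {k : Type u} [Field k] {n c a : k} (hn : n ≠ 0) (hc : c ≠ 0)
    (h : InImage p (n * c ^ p) a) : InImage p n a := by
  refine InImage.induction (P := InImage p n) ?_ ?_ ?_ ?_ ?_ h
  · intro b hb
    exact InImage.pow hb
  · intro _
    exact (InImage.self hn).mul (InImage.pow hc)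
  · intro b _ hb
    obtain ⟨L, i1, i2, hfd, hlt, x, y, hx, hx2, hxy, rfl⟩ := hb
    letI := i1
    letI := i2
    haveI := hfd
    set C : L := algebraMap k L c with hC
    have hC0 : C ≠ 0 := by
      rw [hC]; exact (map_ne_zero (algebraMap k L)).2 hc
    have hCp : C ^ p ≠ 0 := pow_ne_zero _ hC0
    have halg : algebraMap k L (n * c ^ p) = algebraMap k L n * C ^ p := by
      rw [map_mul, map_pow]
    rw [halg] at hx2 hxy
    set u : L := x / C ^ p with hu
    have hxu : x = C ^ p * u := by rw [hu]; field_simp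
    have hu0 : u ≠ 0 := div_ne_zero hx hCp
    have hu2 : u + algebraMap k L n ≠ 0 := by
      intro h0
      apply hx2
      rw [hxu]
      linear_combination (C ^ p) * h0
    have hequ : u * (u + algebraMap k L n) = (y / C ^ 2) ^ p := by
      have e : (C ^ 2) ^ p = C ^ p * C ^ p := by rw [← _root_.pow_mul, two_mul, pow_add]
      rw [div_pow, e, ← hxy, hxu]
      field_simp
    have h1 : Algebra.norm k x = (c ^ Module.finrank k L) ^ p * Algebra.norm k u := by
      rw [hxu, map_mul, map_pow, hC, Algebra.norm_algebraMap]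
    have h2 : InImage p n (Algebra.norm k u) := by
      have h3 : Algebra.norm k u ≠ 0 := Algebra.norm_ne_zero_iff.2 hu0
      exact ⟨Units.mk0 _ h3, by simp, Subgroup.subset_closure (Or.inr (Or.inr (by
        rw [Units.val_mk0]
        exact ⟨L, i1, i2, hfd, hlt, u, y / C ^ 2, hu0, hu2, hequ, rfl⟩)))⟩
    rw [h1]
    exact (InImage.pow (pow_ne_zero _ hc)).mul h2
  · intro a b _ _ ha hb
    exact ha.mul hb
  · intro a _ ha
    exact ha.inv

/-- Twisting by a `p`-th power does not change the image, converse. -/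
theorem InImage.mul_pow {p : ℕ} {k : Type u} [Field k] {n c a : k} (hn : n ≠ 0) (hc : c ≠ 0)
    (h : InImage p n a) : InImage p (n * c ^ p) a := by
  have e : n = (n * c ^ p) * (c⁻¹) ^ p := by
    rw [mul_assoc, ← _root_.mul_pow, mul_inv_cancel₀ hc, one_pow, mul_one]
  rw [e] at h
  exact h.of_mul_pow (mul_ne_zero hn (pow_ne_zero _ hc)) (inv_ne_zero hc)

end Pool.Agent.MP009fd8J
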