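import Pool.Agent.Lib.MP_009fd8_agJ.Def
import Pool.Agent.Lib.MP_009fd8_agJ.AtP
import Pool.Agent.Lib.MP_009fd8_agJ.AtN
import Pool.Agent.Lib.MP_009fd8_agJ.Away
import Pool.Agent.Lib.MP_009fd8_agJ.ClassP
import Pool.Agent.Lib.MP_009fd8_agJ.Val
import Pool.Agent.Lib.MP_009fd8_agJ.Scale

/-!
MP_009fd8_ag, all odd p: the Selmer group is contained in an explicit group.
-/

namespace Pool.Agent.MP009fd8J

open IsDedekindDomain NumberField

universe u

/-- `a` is a `p`-th power times `1 + z`, `z ^ 2 ∈ π ^ p O_v`, in the completion at `v`. -/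
def NearPow (p : ℕ) {K : Type u} [Field K] [NumberField K] (π : K) (v : HeightOneSpectrum (𝓞 K))
    (a : K) : Prop :=
  ∃ c z : v.adicCompletion K, c ≠ 0 ∧ (Valued.v z) ^ 2 ≤ (v.valuation K π) ^ p ∧
    algebraMap K (v.adicCompletion K) a = c ^ p * (1 + z)

/-- The explicit group containing the Selmer group. -/
structure InG (p : ℕ) (K : Type u) [Field K] [NumberField K] (π n a : K) : Prop where
  away : ∀ v : HeightOneSpectrum (𝓞 K), (∃ w, v.valuation K n = w ^ p) →
    ∃ w, v.valuation K a = w ^ p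
  at_n : ∀ v : HeightOneSpectrum (𝓞 K), (¬ ∃ w, v.valuation K n = w ^ p) →
    ∃ (j : ℕ) (c : v.adicCompletion K), c ≠ 0 ∧
      algebraMap K (v.adicCompletion K) a = algebraMap K (v.adicCompletion K) n ^ j * c ^ p
  at_p : ∀ v : HeightOneSpectrum (𝓞 K), v.valuation K (p : K) < 1 → NearPow p π v a

theorem not_pow_of_not_pow {p : ℕ} (hp : p.Prime) {x : WithZero (Multiplicative ℤ)} (hx : x ≠ 0)
    (h : ¬ ∃ w, x = w ^ p) (j : ℕ) (hj0 : 0 < j) (hjp : j < p) (w : WithZero (Multiplicative ℤ)) :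
    x ^ j ≠ w ^ p := by
  intro he
  have hw : w ≠ 0 := by
    rintro rfl
    rw [zero_pow hp.ne_zero] at he
    exact (pow_ne_zero _ hx) he
  obtain ⟨m, hm⟩ : ∃ k : ℤ, x = WithZero.exp k := ⟨WithZero.log x, (WithZero.exp_log hx).symm⟩
  obtain ⟨l, hl⟩ : ∃ k : ℤ, w = WithZero.exp k := ⟨WithZero.log w, (WithZero.exp_log hw).symm⟩
  rw [hm, hl, ← WithZero.exp_nsmul, ← WithZero.exp_nsmul, WithZero.exp_inj] at he
  simp only [nsmul_eq_mul] at he
  have h1 : (p : ℤ) ∣ (j : ℤ) * m := ⟨l, he⟩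
  have hpz : Prime (p : ℤ) := Nat.prime_iff_prime_int.1 hp
  rcases hpz.dvd_or_dvd h1 with h2 | h2
  · have h3 : p ∣ j := by exact_mod_cast h2
    exact absurd (Nat.le_of_dvd hj0 h3) (not_le.2 hjp)
  · obtain ⟨t, ht⟩ := h2
    apply h
    refine ⟨WithZero.exp t, ?_⟩
    rw [hm, ht, ← WithZero.exp_nsmul, nsmul_eq_mul]

/-- Every element of the Selmer group of `1 - ζ` on `J_n` lies in the explicit group. -/
theorem selmer_inG {p : ℕ} (hp : p.Prime) (hp2 : p ≠ 2) {K : Type u} [Field K] [NumberField K]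
    {ζ : K} (hζ : IsPrimitiveRoot ζ p) (n : K) (hn0 : n ≠ 0)
    (hnp : ∀ v : HeightOneSpectrum (𝓞 K), v.valuation K (p : K) < 1 →
      ∃ g : v.adicCompletion K, g ≠ 0 ∧ algebraMap K (v.adicCompletion K) n = 2 * g ^ p)
    {a : K} (h : Selmer p K n a) : InG p K (1 - ζ) n a := by
  have hodd : Odd p := hp.odd_of_ne_two hp2
  have hp3 : 3 ≤ p := by
    obtain ⟨m, hm⟩ := hodd
    have := hp.two_le
    omega
  have h1ζ : (1 : K) - ζ ≠ 0 := by
    rw [sub_ne_zero]
    exact (hζ.ne_one (by omega)).symm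
  refine ⟨?_, ?_, ?_⟩
  · rintro v ⟨w, hw⟩
    have hn1 : algebraMap K (v.adicCompletion K) n ≠ 0 := by rwa [Ne, map_eq_zero]
    obtain ⟨c, hcw⟩ := v.valuedAdicCompletion_surjective K w
    have hc0 : c ≠ 0 := by
      rintro rfl
      rw [map_zero] at hcw
      rw [← hcw, zero_pow hp.ne_zero, map_eq_zero] at hw
      exact hn0 hw
    have hcp : c ^ p ≠ 0 := pow_ne_zero _ hc0
    -- scale
    have h1 : InImage p (algebraMap K (v.adicCompletion K) n * (c⁻¹) ^ p)
        (algebraMap K (v.adicCompletion K) a) := (h v).mul_pow hn1 (inv_ne_zero hc0)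
    have h2 : ‖algebraMap K (v.adicCompletion K) n * (c⁻¹) ^ p‖ = 1 := by
      rw [← norm_one (α := v.adicCompletion K), norm_eq_iff_valued, map_mul, valued_algebraMap, hw,
        map_pow, map_inv₀, hcw, map_one, inv_pow, mul_inv_cancel₀]
      rw [← hcw]
      exact pow_ne_zero _ ((Valuation.ne_zero_iff _).2 hc0)
    obtain ⟨b, _, hb⟩ := image_away p hodd _ h2 h1
    rw [← norm_pow, norm_eq_iff_valued, valued_algebraMap, map_pow] at hb
    exact ⟨_, hb⟩
  · intro v hv
    have hvp : ¬ v.valuation K (p : K) < 1 := by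
      intro hlt
      obtain ⟨g, hg0, hg⟩ := hnp v hlt
      apply hv
      refine ⟨Valued.v g, ?_⟩
      have h2 : ‖(2 : v.adicCompletion K)‖ = 1 := by
        refine norm_two_eq_one (p := p) hodd ?_
        rw [← norm_one (α := v.adicCompletion K), norm_lt_iff_valued, map_one,
          ← map_natCast (algebraMap K (v.adicCompletion K)) p, valued_algebraMap]
        exact hlt
      rw [← norm_one (α := v.adicCompletion K), norm_eq_iff_valued, map_one] at h2
      have h3 := congrArg Valued.v hg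
      rw [valued_algebraMap, map_mul, map_pow, h2, one_mul] at h3
      exact h3
    have hp1 : ‖((p : ℕ) : v.adicCompletion K)‖ = 1 := by
      rw [← norm_one (α := v.adicCompletion K), norm_eq_iff_valued, map_one,
        ← map_natCast (algebraMap K (v.adicCompletion K)) p, valued_algebraMap]
      refine le_antisymm ?_ (not_lt.1 hvp)
      have := v.valuation_le_one (K := K) ((p : ℕ) : 𝓞 K)
      simpa using this
    have hn1 : algebraMap K (v.adicCompletion K) n ≠ 0 := by rwa [Ne, map_eq_zero]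
    -- scale to make the norm less than one
    obtain ⟨c, hc0, hc1⟩ : ∃ c : v.adicCompletion K, c ≠ 0 ∧
        ‖algebraMap K (v.adicCompletion K) n * c ^ p‖ < 1 := by
      obtain ⟨x, hx0, hx1⟩ := NormedField.exists_norm_lt_one (v.adicCompletion K)
      obtain ⟨m, hm⟩ := exists_pow_lt_of_lt_one
        (y := ‖x‖) (x := ‖algebraMap K (v.adicCompletion K) n‖⁻¹)
        (inv_pos.2 (norm_pos_iff.2 hn1)) hx1
      refine ⟨x ^ m, pow_ne_zero _ (norm_pos_iff.1 hx0), ?_⟩
      rw [norm_mul, norm_pow, norm_pow, ← pow_mul, mul_comm m p, pow_mul]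
      have h5 : (‖x‖ ^ p) ^ m ≤ ‖x‖ ^ m := by
        refine pow_le_pow_left₀ (pow_nonneg (norm_nonneg _) _) ?_ m
        calc ‖x‖ ^ p ≤ ‖x‖ ^ 1 := pow_le_pow_of_le_one (norm_nonneg _) hx1.le (by omega)
          _ = ‖x‖ := pow_one _
      have h6 : ‖algebraMap K (v.adicCompletion K) n‖ * (‖x‖ ^ p) ^ m <
          ‖algebraMap K (v.adicCompletion K) n‖ * ‖algebraMap K (v.adicCompletion K) n‖⁻¹ :=
        mul_lt_mul_of_pos_left (h5.trans_lt hm) (norm_pos_iff.2 hn1)
      rwa [mul_inv_cancel₀ (norm_ne_zero_iff.2 hn1)] at h6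
    have h1 : InImage p (algebraMap K (v.adicCompletion K) n * c ^ p)
        (algebraMap K (v.adicCompletion K) a) := (h v).mul_pow hn1 hc0
    obtain ⟨j, b, hb0, hb⟩ := image_at_n p hp hp2 hp1 _ (mul_ne_zero hn1 (pow_ne_zero _ hc0)) hc1 (by
      intro d j hj0 hjp he
      rw [← norm_pow, ← norm_pow, norm_eq_iff_valued, map_pow, map_pow, map_mul, map_pow,
        valued_algebraMap, mul_pow] at he
      have hx : v.valuation K n ≠ 0 := (Valuation.ne_zero_iff _).2 hn0
      have hvc : Valued.v c ≠ 0 := (Valuation.ne_zero_iff _).2 hc0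
      refine not_pow_of_not_pow hp hx hv j hj0 hjp (Valued.v d / (Valued.v c) ^ j) ?_
      rw [div_pow, ← he, ← pow_mul, ← pow_mul, mul_comm p j, mul_div_assoc, div_self, mul_one]
      exact pow_ne_zero _ hvc) h1
    refine ⟨j, c ^ j * b, mul_ne_zero (pow_ne_zero _ hc0) hb0, ?_⟩
    rw [hb, mul_pow, mul_pow, ← pow_mul, ← pow_mul, mul_comm p j, mul_assoc]
  · intro v hv
    obtain ⟨g, hg0, hg⟩ := hnp v hv
    set π : v.adicCompletion K := algebraMap K (v.adicCompletion K) (1 - ζ) with hπ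
    have hvπ : Valued.v π = v.valuation K (1 - ζ) := by
      rw [hπ, valued_algebraMap]
    have hπ0 : π ≠ 0 := by
      rw [hπ, Ne, map_eq_zero]; exact h1ζ
    have hα0 : 0 < ‖π‖ := norm_pos_iff.2 hπ0
    have hvp : v.valuation K ((p : ℕ) : K) = v.valuation K (1 - ζ) ^ (p - 1) :=
      valuation_p _ hp hζ
    have hα : ‖((p : ℕ) : v.adicCompletion K)‖ = ‖π‖ ^ (p - 1) := by
      rw [← norm_pow, norm_eq_iff_valued, ← map_natCast (algebraMap K (v.adicCompletion K)) p,
        valued_algebraMap, map_pow, hπ, valued_algebraMap]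
      exact hvp
    have hplt : ‖((p : ℕ) : v.adicCompletion K)‖ < 1 := by
      rw [← norm_one (α := v.adicCompletion K), norm_lt_iff_valued, map_one,
        ← map_natCast (algebraMap K (v.adicCompletion K)) p, valued_algebraMap]
      exact hv
    have hα1 : ‖π‖ < 1 := by
      by_contra hcon
      push Not at hcon
      rw [hα] at hplt
      exact absurd (one_le_pow₀ hcon) (not_le.2 hplt)
    have hI := h v
    rw [hg] at hI
    obtain ⟨c, z, hc, hz, e⟩ := image_at_p_sq p hp hp2 ‖π‖ hα0 hα1 hα g hg0 hI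
    refine ⟨c, z, hc, ?_, e⟩
    rw [← norm_pow, ← norm_pow, norm_le_iff_valued, map_pow, map_pow, hvπ] at hz
    exact hz

end Pool.Agent.MP009fd8J
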