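import Pool.Agent.Lib.MP_009fd8_agJ.PGenB

/-!
The places above `p`, general condition: the local form of a point of `x (x + 2 h) = y ^ p`.
-/

set_option autoImplicit false

namespace Pool.Agent.MP009fd8J

open Finset

/-- `u ^ 2 = s ^ p + (h ^ 2 - 1) + O (p s)` for `s = 1 + y`, `u ^ 2 = h ^ 2 + y ^ p`. -/
theorem norm_base {F : Type*} [NormedField F] [IsUltrametricDist F] {p : ℕ} (hp : p.Prime)
    (hodd : Odd p) (x y h : F) (hxy : x * (x + 2 * h) = y ^ p) :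
    ‖(x + h) ^ 2 - (1 + y) ^ p - (h ^ 2 - 1)‖ ≤
      ‖(p : F)‖ * (‖1 + y‖ * max 1 ‖1 + y‖ ^ (p - 2)) := by
  have h1 := norm_add_pow_sub_le hp (1 + y) (-1 : F) (by simp)
  have e : (x + h) ^ 2 - (1 + y) ^ p - (h ^ 2 - 1) =
      (1 + y + -1) ^ p - (1 + y) ^ p - (-1) ^ p := by
    have e2 : (1 + y + -1 : F) = y := by ring
    rw [e2, ← hxy, hodd.neg_one_pow]
    ring
  rw [e]
  exact h1

/-- The bound for `1 < ‖s‖`. -/
theorem norm_base_gt {F : Type*} [NormedField F] [IsUltrametricDist F] {p : ℕ} (hp : p.Prime)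
    (hodd : Odd p) (x y h : F) (hxy : x * (x + 2 * h) = y ^ p) (hh2 : ‖h ^ 2 - 1‖ ≤ ‖(p : F)‖)
    (hs : 1 < ‖1 + y‖) :
    ‖(x + h) ^ 2 - (1 + y) ^ p‖ ≤ ‖(p : F)‖ * ‖1 + y‖ ^ (p - 1) := by
  have h1 := norm_base hp hodd x y h hxy
  rw [max_eq_right hs.le, ← pow_succ'] at h1
  have h2 : p - 2 + 1 = p - 1 := by
    have := hp.two_le
    omega
  rw [h2] at h1
  have e : (x + h) ^ 2 - (1 + y) ^ p = ((x + h) ^ 2 - (1 + y) ^ p - (h ^ 2 - 1)) + (h ^ 2 - 1) := by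
    ring
  rw [e]
  refine (IsUltrametricDist.norm_add_le_max _ _).trans (max_le h1 (hh2.trans ?_))
  exact le_mul_of_one_le_right (norm_nonneg _) (one_le_pow₀ hs.le)

theorem norm_base_le {F : Type*} [NormedField F] [IsUltrametricDist F] {p : ℕ} (hp : p.Prime)
    (hodd : Odd p) (x y h : F) (hxy : x * (x + 2 * h) = y ^ p) (hs : ‖1 + y‖ ≤ 1) :
    ‖(x + h) ^ 2 - (1 + y) ^ p - (h ^ 2 - 1)‖ ≤ ‖(p : F)‖ * ‖1 + y‖ := by
  have h1 := norm_base hp hodd x y h hxy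
  rw [max_eq_left hs, one_pow, mul_one] at h1
  exact h1

theorem nrm_two {F : Type*} [NormedField F] [IsUltrametricDist F] {p : ℕ}
    (hodd : Odd p) (hA1 : ‖(p : F)‖ < 1) : ‖(2 : F)‖ = 1 := by
  obtain ⟨q, hq⟩ := hodd
  apply le_antisymm
  · exact_mod_cast IsUltrametricDist.norm_natCast_le_one F 2
  · have h1 : (1 : F) + p = 2 * ((q + 1 : ℕ) : F) := by
      rw [hq]
      push_cast
      ring
    have h2 : ‖(1 : F) + p‖ = 1 := nrm_one_add hA1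
    rw [h1, norm_mul] at h2
    have h3 : ‖((q + 1 : ℕ) : F)‖ ≤ 1 := IsUltrametricDist.norm_natCast_le_one F _
    rw [← h2]
    exact mul_le_of_le_one_right (norm_nonneg _) h3

/-- The form of `x`, case of a second coefficient divisible by `π`. -/
theorem local_form_one {F : Type*} [NormedField F] [IsUltrametricDist F] {p : ℕ} (hp : p.Prime)
    (hodd : Odd p) (α : ℝ) (hα0 : 0 < α) (hα1 : α < 1) (hA : ‖(p : F)‖ = α ^ (p - 1))
    (x y h : F) (hx : x ≠ 0) (hxh : x + 2 * h ≠ 0) (hxy : x * (x + 2 * h) = y ^ p)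
    (hh : ‖h - 1‖ ≤ ‖(p : F)‖) (hh2 : ‖h ^ 2 - 1‖ ≤ α ^ p) :
    (∃ w e : F, w ≠ 0 ∧ (x = w ^ p * (1 + e) ∨ x * (1 + e) = w ^ p) ∧ ‖e‖ ^ 2 ≤ α ^ p) ∨
      ∃ e : F, x = -h * (1 + e) ∧ ‖e‖ ^ 2 ≤ α ^ p := by
  have h3p : 3 ≤ p := by
    have h2 := hp.two_le
    obtain ⟨q, hq⟩ := hodd
    omega
  have hA1 : ‖(p : F)‖ < 1 := by
    rw [hA]
    exact pow_lt_one₀ hα0.le hα1 (by omega)
  have hA0 : 0 < ‖(p : F)‖ := by
    rw [hA]
    exact pow_pos hα0 _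
  have h2 := nrm_two hodd hA1
  have hh2' : ‖h ^ 2 - 1‖ ≤ ‖(p : F)‖ := by
    rw [hA]
    exact hh2.trans (pow_le_pow_of_le_one hα0.le hα1.le (by omega))
  have hA2 : ‖(p : F)‖ ^ 2 ≤ α ^ p := by
    rw [hA, ← pow_mul]
    exact pow_le_pow_of_le_one hα0.le hα1.le (by omega)
  have hαp : α ^ p = ‖(p : F)‖ * α := by
    rw [hA, ← pow_succ, Nat.sub_add_cancel hp.one_le]
  have hhn : ‖h‖ = 1 := by
    have e : h = 1 + (h - 1) := by ring
    rw [e]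
    exact nrm_one_add (hh.trans_lt hA1)
  have hh0 : h ≠ 0 := by
    rw [← norm_pos_iff, hhn]
    exact one_pos
  rcases le_or_gt ‖1 + y‖ α with hs | hs
  · right
    refine ⟨-((x + h) / h), ?_, ?_⟩
    · field_simp
      ring
    · rw [norm_neg, norm_div, hhn, div_one, ← norm_pow]
      have h4 := norm_base_le hp hodd x y h hxy (hs.trans hα1.le)
      have e : (x + h) ^ 2 = ((x + h) ^ 2 - (1 + y) ^ p - (h ^ 2 - 1)) +
        ((1 + y) ^ p + (h ^ 2 - 1)) := by ring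
      rw [e]
      refine (IsUltrametricDist.norm_add_le_max _ _).trans (max_le ?_ ?_)
      · refine h4.trans ?_
        rw [hαp]
        exact mul_le_mul_of_nonneg_left hs (norm_nonneg _)
      · refine (IsUltrametricDist.norm_add_le_max _ _).trans (max_le ?_ hh2)
        rw [norm_pow]
        exact pow_le_pow_left₀ (norm_nonneg _) hs _
  · left
    obtain ⟨q, hq⟩ := id hodd
    have hs0 : 0 < ‖1 + y‖ := hα0.trans hs
    have hspow : ‖1 + y‖ ^ p = ‖1 + y‖ ^ (p - 1) * ‖1 + y‖ := by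
      rw [← pow_succ, Nat.sub_add_cancel hp.one_le]
    have hgt : 1 < ‖1 + y‖ → ‖(x + h) ^ 2 - (1 + y) ^ p‖ ≤ ‖(p : F)‖ * ‖1 + y‖ ^ (p - 1) :=
      norm_base_gt hp hodd x y h hxy hh2'
    have hle : ‖1 + y‖ ≤ 1 → ‖(x + h) ^ 2 - (1 + y) ^ p‖ ≤ ‖(p : F)‖ * ‖1 + y‖ := by
      intro hs1
      have h4 := norm_base_le hp hodd x y h hxy hs1
      have e : (x + h) ^ 2 - (1 + y) ^ p =
        ((x + h) ^ 2 - (1 + y) ^ p - (h ^ 2 - 1)) + (h ^ 2 - 1) := by ring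
      rw [e]
      refine (IsUltrametricDist.norm_add_le_max _ _).trans (max_le h4 (hh2.trans ?_))
      rw [hαp]
      exact mul_le_mul_of_nonneg_left hs.le (norm_nonneg _)
    have hlt : ‖(x + h) ^ 2 - (1 + y) ^ p‖ < ‖1 + y‖ ^ p := by
      rcases le_or_gt ‖1 + y‖ 1 with hs1 | hs1
      · refine (hle hs1).trans_lt ?_
        rw [hspow, hA]
        exact mul_lt_mul_of_pos_right (pow_lt_pow_left₀ hs hα0.le (by omega)) hs0
      · refine (hgt hs1).trans_lt ?_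
        rw [hspow, mul_comm]
        exact mul_lt_mul_of_pos_left (hA1.trans hs1) (pow_pos hs0 _)
    obtain ⟨w, e, hw, hxe, he⟩ := caseB hp hq h2 x y h (1 + y) (x + h) hx hxh hxy rfl hh hlt hgt
    refine ⟨w, e, hw, hxe, ?_⟩
    rcases he with he | ⟨hs1, he⟩
    · exact (pow_le_pow_left₀ (norm_nonneg _) he 2).trans hA2
    · by_contra hcon
      push Not at hcon
      have h5 : α ^ p * ‖1 + y‖ ^ p < ‖(p : F)‖ ^ 2 * ‖1 + y‖ ^ 2 := by
        calc α ^ p * ‖1 + y‖ ^ p < ‖e‖ ^ 2 * ‖1 + y‖ ^ p :=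
              mul_lt_mul_of_pos_right hcon (pow_pos hs0 _)
          _ ≤ ‖(x + h) ^ 2 - (1 + y) ^ p‖ ^ 2 := he
          _ ≤ (‖(p : F)‖ * ‖1 + y‖) ^ 2 := pow_le_pow_left₀ (norm_nonneg _) (hle hs1) 2
          _ = ‖(p : F)‖ ^ 2 * ‖1 + y‖ ^ 2 := by ring
      have h6 : ‖(p : F)‖ ^ 2 = α ^ p * α ^ (p - 2) := by
        rw [hA, ← pow_mul, ← pow_add]
        congr 1
        omega
      have h7 : ‖1 + y‖ ^ p = ‖1 + y‖ ^ (p - 2) * ‖1 + y‖ ^ 2 := by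
        rw [← pow_add]
        congr 1
        omega
      have h8 : α ^ (p - 2) ≤ ‖1 + y‖ ^ (p - 2) := pow_le_pow_left₀ hα0.le hs.le _
      have h9 : α ^ p * α ^ (p - 2) * ‖1 + y‖ ^ 2 ≤ α ^ p * ‖1 + y‖ ^ p := by
        rw [h7, ← mul_assoc]
        exact mul_le_mul_of_nonneg_right (mul_le_mul_of_nonneg_left h8 (pow_pos hα0 _).le)
          (sq_nonneg _)
      rw [h6] at h5
      exact absurd h5 (not_lt.2 h9)

/-- The form of `x`, general second coefficient. -/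
theorem local_form_two {F : Type*} [NormedField F] [IsUltrametricDist F] {p : ℕ} (hp : p.Prime)
    (hodd : Odd p) (hA0 : 0 < ‖(p : F)‖) (hA1 : ‖(p : F)‖ < 1)
    (x y h : F) (hx : x ≠ 0) (hxh : x + 2 * h ≠ 0) (hxy : x * (x + 2 * h) = y ^ p)
    (hh : ‖h - 1‖ ≤ ‖(p : F)‖) (hh2 : ‖h ^ 2 - 1‖ ≤ ‖(p : F)‖) :
    (∃ w e : F, w ≠ 0 ∧ (x = w ^ p * (1 + e) ∨ x * (1 + e) = w ^ p) ∧ ‖e‖ ^ 2 < ‖(p : F)‖) ∨
      (‖x + h‖ ^ 2 ≤ ‖(p : F)‖ ∧ ‖1 + y‖ < 1 ∧ ‖1 + y‖ ^ p ≤ ‖(p : F)‖ ∧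
        ‖(x + h) ^ 2 - (1 + y) ^ p - (h ^ 2 - 1)‖ < ‖(p : F)‖) := by
  have h2 := nrm_two hodd hA1
  have hgt : 1 < ‖1 + y‖ → ‖(x + h) ^ 2 - (1 + y) ^ p‖ ≤ ‖(p : F)‖ * ‖1 + y‖ ^ (p - 1) :=
    norm_base_gt hp hodd x y h hxy hh2
  have hle : ‖1 + y‖ ≤ 1 → ‖(x + h) ^ 2 - (1 + y) ^ p‖ ≤ ‖(p : F)‖ := by
    intro hs1
    have h4 := norm_base_le hp hodd x y h hxy hs1
    have e : (x + h) ^ 2 - (1 + y) ^ p =
      ((x + h) ^ 2 - (1 + y) ^ p - (h ^ 2 - 1)) + (h ^ 2 - 1) := by ring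
    rw [e]
    refine (IsUltrametricDist.norm_add_le_max _ _).trans (max_le (h4.trans ?_) hh2)
    exact mul_le_of_le_one_right (norm_nonneg _) hs1
  rcases lt_or_ge ‖(x + h) ^ 2 - (1 + y) ^ p‖ (‖1 + y‖ ^ p) with hlt | hge
  · left
    obtain ⟨q, hq⟩ := id hodd
    obtain ⟨w, e, hw, hxe, he⟩ := caseB hp hq h2 x y h (1 + y) (x + h) hx hxh hxy rfl hh hlt hgt
    refine ⟨w, e, hw, hxe, ?_⟩
    rcases he with he | ⟨hs1, he⟩
    · calc ‖e‖ ^ 2 ≤ ‖(p : F)‖ ^ 2 := pow_le_pow_left₀ (norm_nonneg _) he 2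
        _ < ‖(p : F)‖ := by
          rw [sq]
          exact mul_lt_of_lt_one_right hA0 hA1
    · have h5 := hle hs1
      by_contra hcon
      push Not at hcon
      have h6 : ‖(x + h) ^ 2 - (1 + y) ^ p‖ ^ 2 < ‖(p : F)‖ * ‖1 + y‖ ^ p := by
        rw [sq]
        exact mul_lt_mul' h5 hlt (norm_nonneg _) hA0
      have h7 : ‖(p : F)‖ * ‖1 + y‖ ^ p ≤ ‖e‖ ^ 2 * ‖1 + y‖ ^ p :=
        mul_le_mul_of_nonneg_right hcon (pow_nonneg (norm_nonneg _) _)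
      exact absurd (h7.trans he) (not_le.2 h6)
  · right
    have hs1 : ‖1 + y‖ ≤ 1 := by
      by_contra hcon
      push Not at hcon
      have h4 := hge.trans (hgt hcon)
      have hs0 : 0 < ‖1 + y‖ := one_pos.trans hcon
      have hspow : ‖1 + y‖ ^ p = ‖1 + y‖ * ‖1 + y‖ ^ (p - 1) := by
        rw [← pow_succ', Nat.sub_add_cancel hp.one_le]
      rw [hspow] at h4
      have h5 := le_of_mul_le_mul_right h4 (pow_pos hs0 _)
      linarith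
    have hsA : ‖1 + y‖ ^ p ≤ ‖(p : F)‖ := hge.trans (hle hs1)
    have hs1' : ‖1 + y‖ < 1 := by
      rcases hs1.lt_or_eq with h | h
      · exact h
      · rw [h, one_pow] at hsA
        exact absurd hsA (not_le.2 hA1)
    refine ⟨?_, hs1', hsA, ?_⟩
    · rw [← norm_pow]
      have e : (x + h) ^ 2 = ((x + h) ^ 2 - (1 + y) ^ p) + (1 + y) ^ p := by ring
      rw [e]
      refine (IsUltrametricDist.norm_add_le_max _ _).trans (max_le (hle hs1) ?_)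
      rw [norm_pow]
      exact hsA
    · refine (norm_base_le hp hodd x y h hxy hs1).trans_lt ?_
      exact mul_lt_of_lt_one_right hA0 hs1'

end Pool.Agent.MP009fd8J
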