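import Pool.Agent.Lib.MP_009fd8_agJ.Def
import Pool.Agent.Lib.MP_009fd8_agJ.NormTools

/-!
The places above `p`, general condition: elementary estimates in one field.
-/

set_option autoImplicit false

namespace Pool.Agent.MP009fd8J

open Finset

/-- The binomial theorem modulo `p`. -/
theorem norm_add_pow_sub_le {F : Type*} [NormedField F] [IsUltrametricDist F] {p : ℕ}
    (hp : p.Prime) (x e : F) (he : ‖e‖ = 1) :
    ‖(x + e) ^ p - x ^ p - e ^ p‖ ≤ ‖(p : F)‖ * (‖x‖ * max 1 ‖x‖ ^ (p - 2)) := by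
  rw [add_pow_prime_eq hp]
  have e1 : x ^ p + e ^ p + (p : F) * x * e *
      ∑ k ∈ Ioo 0 p, x ^ (k - 1) * e ^ (p - k - 1) * ↑(p.choose k / p) - x ^ p - e ^ p =
      (p : F) * (x * (e * ∑ k ∈ Ioo 0 p, x ^ (k - 1) * e ^ (p - k - 1) * ↑(p.choose k / p))) := by
    ring
  rw [e1, norm_mul, norm_mul, norm_mul, he, one_mul]
  apply mul_le_mul_of_nonneg_left _ (norm_nonneg _)
  apply mul_le_mul_of_nonneg_left _ (norm_nonneg _)
  have hM : (1 : ℝ) ≤ max 1 ‖x‖ := le_max_left _ _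
  apply IsUltrametricDist.norm_sum_le_of_forall_le_of_nonneg
    (pow_nonneg (zero_le_one.trans hM) _)
  intro i hi
  rw [mem_Ioo] at hi
  rw [norm_mul, norm_mul, norm_pow, norm_pow, he, one_pow, mul_one]
  have h1 : ‖((p.choose i / p : ℕ) : F)‖ ≤ 1 := IsUltrametricDist.norm_natCast_le_one _ _
  calc ‖x‖ ^ (i - 1) * ‖((p.choose i / p : ℕ) : F)‖
      ≤ max 1 ‖x‖ ^ (i - 1) * 1 :=
        mul_le_mul (pow_le_pow_left₀ (norm_nonneg _) (le_max_right _ _) _) h1 (norm_nonneg _)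
          (pow_nonneg (zero_le_one.trans hM) _)
    _ ≤ max 1 ‖x‖ ^ (p - 2) := by
        rw [mul_one]
        exact pow_le_pow_right₀ hM (by omega)

theorem nrm_one_add {F : Type*} [NormedField F] [IsUltrametricDist F] {δ : F}
    (h : ‖δ‖ < 1) : ‖1 + δ‖ = 1 := by
  rw [IsUltrametricDist.norm_add_eq_max_of_norm_ne_norm (by rw [norm_one]; exact h.ne'), norm_one,
    max_eq_left h.le]

theorem norm_one_add_pow_sub_one {F : Type*} [NormedField F] [IsUltrametricDist F] {δ : F}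
    (h : ‖δ‖ ≤ 1) (q : ℕ) : ‖(1 + δ) ^ q - 1‖ ≤ ‖δ‖ := by
  have := norm_prod_one_add_sub_one (univ : Finset (Fin q)) (fun _ => δ) (norm_nonneg δ) h
    (fun _ _ => le_rfl)
  rw [prod_const, card_univ, Fintype.card_fin] at this
  exact this

/-- The case where `x (x + 2 h) = y ^ p` is close to a `p`-th power. -/
theorem caseB {F : Type*} [NormedField F] [IsUltrametricDist F] {p q : ℕ} (hp : p.Prime)
    (hpq : p = 2 * q + 1) (h2 : ‖(2 : F)‖ = 1)
    (x y h s u : F) (hx : x ≠ 0) (hxh : x + 2 * h ≠ 0) (hxy : x * (x + 2 * h) = y ^ p)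
    (hu : u = x + h) (hh : ‖h - 1‖ ≤ ‖(p : F)‖)
    (hΔ : ‖u ^ 2 - s ^ p‖ < ‖s‖ ^ p)
    (hΔ2 : 1 < ‖s‖ → ‖u ^ 2 - s ^ p‖ ≤ ‖(p : F)‖ * ‖s‖ ^ (p - 1)) :
    ∃ w e : F, w ≠ 0 ∧ (x = w ^ p * (1 + e) ∨ x * (1 + e) = w ^ p) ∧
      (‖e‖ ≤ ‖(p : F)‖ ∨ (‖s‖ ≤ 1 ∧ ‖e‖ ^ 2 * ‖s‖ ^ p ≤ ‖u ^ 2 - s ^ p‖ ^ 2)) := by
  have hs0 : s ≠ 0 := by
    rintro rfl
    have h0 : ‖(0 : F)‖ ^ p = 0 := by rw [norm_zero, zero_pow hp.ne_zero]
    rw [h0] at hΔ
    exact absurd hΔ (not_lt.2 (norm_nonneg _))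
  have hsn : 0 < ‖s‖ := norm_pos_iff.2 hs0
  have hsp0 : 0 < ‖s‖ ^ p := pow_pos hsn _
  set A : ℝ := ‖(p : F)‖ with hA
  have hA0 : 0 ≤ A := norm_nonneg _
  set Δ : F := u ^ 2 - s ^ p with hΔdef
  set δ : F := Δ / s ^ p with hδ
  have hspne : s ^ p ≠ 0 := pow_ne_zero _ hs0
  have hδΔ : ‖δ‖ * ‖s‖ ^ p = ‖Δ‖ := by
    rw [hδ, norm_div, norm_pow, div_mul_cancel₀ _ hsp0.ne']
  have hδ1 : ‖δ‖ < 1 := by
    rw [hδ, norm_div, norm_pow, div_lt_one hsp0]
    exact hΔ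
  have hδu : ‖1 + δ‖ = 1 := nrm_one_add hδ1
  have hsp : s ^ p = s ^ q * s ^ q * s := by
    rw [hpq]
    ring
  have hu2 : u ^ 2 = s ^ p * (1 + δ) := by
    rw [hδ, mul_add, mul_one, mul_div_cancel₀ _ hspne, hΔdef]
    ring
  set r : F := u / s ^ q with hr
  have hsq : s ^ q ≠ 0 := pow_ne_zero _ hs0
  have hr2 : r ^ 2 = s * (1 + δ) := by
    rw [hr, div_pow, div_eq_iff (pow_ne_zero _ hsq), hu2, hsp]
    ring
  set ε : F := (1 + δ) ^ q - 1 with hε
  have hrp : r ^ p = u + u * ε := by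
    have e1 : r ^ p = r * (r ^ 2) ^ q := by
      rw [hpq]
      ring
    rw [e1, hr2, mul_pow, hr, hε]
    field_simp
    ring
  have hεn : ‖ε‖ ≤ ‖δ‖ := norm_one_add_pow_sub_one hδ1.le q
  have hrn : ‖r‖ ^ 2 = ‖s‖ := by
    rw [← norm_pow, hr2, norm_mul, hδu, mul_one]
  have hun : ‖u‖ ^ 2 = ‖s‖ ^ p := by
    rw [← norm_pow, hu2, norm_mul, hδu, mul_one, norm_pow]
  set M : ℝ := max 1 ‖r‖ with hM
  have hM1 : 1 ≤ M := le_max_left _ _
  have hM0 : 0 < M := one_pos.trans_le hM1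
  have hMp : 1 ≤ M ^ p := one_le_pow₀ hM1
  have key : ∀ σ : F, (σ = 1 ∨ σ = -1) → ‖r + σ‖ = M →
      ∃ e : F, u + σ * h = (r + σ) ^ p * (1 + e) ∧
        (‖e‖ ≤ A ∨ (‖s‖ ≤ 1 ∧ ‖e‖ ^ 2 * ‖s‖ ^ p ≤ ‖Δ‖ ^ 2)) := by
    intro σ hσ hσM
    have hσ1 : ‖σ‖ = 1 := by
      rcases hσ with h | h <;> simp [h]
    have hσp : σ ^ p = σ := by
      rcases hσ with h | h
      · simp [h]
      · rw [h]
        exact Odd.neg_one_pow ⟨q, hpq⟩
    have hrσ : r + σ ≠ 0 := by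
      rw [← norm_pos_iff, hσM]
      exact hM0
    set E : F := (r + σ) ^ p - r ^ p - σ ^ p with hE
    have hEn : ‖E‖ ≤ A * M ^ p := by
      refine (norm_add_pow_sub_le hp r σ hσ1).trans ?_
      apply mul_le_mul_of_nonneg_left _ hA0
      have h2p : 2 ≤ p := hp.two_le
      calc ‖r‖ * M ^ (p - 2) ≤ M * M ^ (p - 2) :=
            mul_le_mul_of_nonneg_right (le_max_right _ _) (pow_nonneg hM0.le _)
        _ = M ^ (p - 2 + 1) := by ring
        _ ≤ M ^ p := pow_le_pow_right₀ hM1 (by omega)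
    have hhn : ‖σ * (h - 1)‖ ≤ A * M ^ p := by
      rw [norm_mul, hσ1, one_mul]
      exact hh.trans (le_mul_of_one_le_right hA0 hMp)
    set R : F := -E + -(u * ε) + σ * (h - 1) with hR
    have hRn : ‖R‖ ≤ max (A * M ^ p) ‖u * ε‖ := by
      rw [hR]
      refine (IsUltrametricDist.norm_add_le_max _ _).trans (max_le ?_ (hhn.trans (le_max_left _ _)))
      refine (IsUltrametricDist.norm_add_le_max _ _).trans ?_
      rw [norm_neg, norm_neg]
      exact max_le (hEn.trans (le_max_left _ _)) (le_max_right _ _)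
    have hrσp : (r + σ) ^ p ≠ 0 := pow_ne_zero _ hrσ
    refine ⟨R / (r + σ) ^ p, ?_, ?_⟩
    · rw [mul_add, mul_one, mul_div_cancel₀ _ hrσp, hR]
      have e2 : (r + σ) ^ p = u + u * ε + σ + E := by
        rw [hE, hσp, ← hrp]
        ring
      rw [e2]
      ring
    · have hen : ‖R / (r + σ) ^ p‖ = ‖R‖ / M ^ p := by
        rw [norm_div, norm_pow, hσM]
      rw [hen]
      have hMp0 : 0 < M ^ p := pow_pos hM0 _
      by_cases hc : ‖u * ε‖ ≤ A * M ^ p
      · left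
        rw [div_le_iff₀ hMp0]
        exact hRn.trans (max_le le_rfl hc)
      · push Not at hc
        have hRu : ‖R‖ ≤ ‖u * ε‖ := hRn.trans (max_le hc.le le_rfl)
        rcases le_or_gt ‖s‖ 1 with hs1 | hs1
        · right
          refine ⟨hs1, ?_⟩
          have hRM : ‖R‖ / M ^ p ≤ ‖u * ε‖ := by
            rw [div_le_iff₀ hMp0]
            exact hRu.trans (le_mul_of_one_le_right (norm_nonneg _) hMp)
          have hRM0 : 0 ≤ ‖R‖ / M ^ p := div_nonneg (norm_nonneg _) hMp0.le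
          calc (‖R‖ / M ^ p) ^ 2 * ‖s‖ ^ p ≤ ‖u * ε‖ ^ 2 * ‖s‖ ^ p :=
                mul_le_mul_of_nonneg_right (pow_le_pow_left₀ hRM0 hRM 2) hsp0.le
            _ = ‖ε‖ ^ 2 * (‖s‖ ^ p * ‖s‖ ^ p) := by
                rw [norm_mul, mul_pow, hun]
                ring
            _ ≤ ‖δ‖ ^ 2 * (‖s‖ ^ p * ‖s‖ ^ p) :=
                mul_le_mul_of_nonneg_right (pow_le_pow_left₀ (norm_nonneg _) hεn 2)
                  (mul_nonneg hsp0.le hsp0.le)
            _ = ‖Δ‖ ^ 2 := by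
                rw [← hδΔ]
                ring
        · exfalso
          refine absurd hc (not_lt.2 ?_)
          have hur : ‖u‖ = ‖r‖ ^ p := by
            have e3 : ‖u‖ ^ 2 = (‖r‖ ^ p) ^ 2 := by
              rw [hun, ← hrn]
              ring
            exact (pow_left_inj₀ (norm_nonneg _) (pow_nonneg (norm_nonneg _) _) two_ne_zero).1 e3
          have huM : ‖u‖ ≤ M ^ p := by
            rw [hur]
            exact pow_le_pow_left₀ (norm_nonneg _) (le_max_right _ _) _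
          have hδA : ‖δ‖ ≤ A := by
            have h3 := hΔ2 hs1
            rw [← hδΔ] at h3
            have h4 : ‖s‖ ^ p = ‖s‖ ^ (p - 1) * ‖s‖ := by
              rw [← pow_succ, Nat.sub_add_cancel hp.one_le]
            have h5 : 0 < ‖s‖ ^ (p - 1) := pow_pos hsn _
            have h6 : ‖δ‖ * ‖s‖ ≤ A := by
              rw [h4, ← mul_assoc, mul_right_comm] at h3
              exact le_of_mul_le_mul_right h3 h5
            exact (le_mul_of_one_le_right (norm_nonneg _) hs1.le).trans h6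
          rw [norm_mul, mul_comm]
          exact mul_le_mul (hεn.trans hδA) huM (norm_nonneg _) hA0
  have hone : ‖r + 1‖ = M ∨ ‖r + (-1)‖ = M := by
    rcases lt_or_ge 1 ‖r‖ with h1 | h1
    · left
      rw [IsUltrametricDist.norm_add_eq_max_of_norm_ne_norm (by rw [norm_one]; exact h1.ne'),
        norm_one, max_comm]
    · have hM1' : M = 1 := max_eq_left h1
      rw [hM1']
      by_cases h3 : ‖r + 1‖ = 1
      · exact Or.inl h3
      · right
        have h4 : ‖r + 1‖ ≤ 1 := by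
          refine (IsUltrametricDist.norm_add_le_max _ _).trans (max_le h1 ?_)
          rw [norm_one]
        have h5 : ‖r + 1‖ < 1 := lt_of_le_of_ne h4 h3
        have e4 : r + (-1) = (r + 1) + (-2) := by ring
        rw [e4, IsUltrametricDist.norm_add_eq_max_of_norm_ne_norm
          (by rw [norm_neg, h2]; exact h5.ne), norm_neg, h2, max_eq_right h5.le]
  rcases hone with h1 | h1
  · obtain ⟨e, he, hb⟩ := key 1 (Or.inl rfl) h1
    have hr1 : r + 1 ≠ 0 := by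
      rw [← norm_pos_iff, h1]
      exact hM0
    have hy : y ≠ 0 := by
      rintro rfl
      rw [zero_pow hp.ne_zero] at hxy
      rcases mul_eq_zero.1 hxy with h6 | h6
      · exact hx h6
      · exact hxh h6
    refine ⟨y / (r + 1), e, div_ne_zero hy hr1, Or.inr ?_, hb⟩
    have e5 : x + 2 * h = (r + 1) ^ p * (1 + e) := by
      rw [← he, hu]
      ring
    rw [div_pow, ← hxy, e5]
    field_simp
  · obtain ⟨e, he, hb⟩ := key (-1) (Or.inr rfl) h1
    have hr1 : r + (-1) ≠ 0 := by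
      rw [← norm_pos_iff, h1]
      exact hM0
    refine ⟨r + (-1), e, hr1, Or.inl ?_, hb⟩
    rw [← he, hu]
    ring

end Pool.Agent.MP009fd8J
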